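import Mathlib
import Pool.Agent.W257.FS.D

/-! # The space of multiplicative functions with values `1` and `-1` -/

set_option autoImplicit false

namespace Pool.Agent.TH668.Gen

open Finset Filter
open Pool.Agent.W257.FS

/-- the multiplicative function whose value at every prime power `p ^ k`, `k ≥ 1`, is `1` if
`ω (p ^ k)` is true and `-1` otherwise -/
noncomputable def mulOf (ω : ℕ → Bool) (n : ℕ) : ℝ :=
  ∏ p ∈ n.primeFactors, if ω (p ^ n.factorization p) then (1 : ℝ) else -1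

lemma ite_or (b : Bool) : (if b then (1 : ℝ) else -1) = 1 ∨ (if b then (1 : ℝ) else -1) = -1 := by
  cases b <;> simp

lemma prod_or {ι : Type} (s : Finset ι) (u : ι → ℝ) (h : ∀ i ∈ s, u i = 1 ∨ u i = -1) :
    ∏ i ∈ s, u i = 1 ∨ ∏ i ∈ s, u i = -1 := by
  classical
  induction s using Finset.induction_on with
  | empty => simp
  | insert a s ha ih =>
    rw [prod_insert ha]
    rcases h a (mem_insert_self _ _) with h1 | h1 <;>
      rcases ih (fun i hi => h i (mem_insert_of_mem hi)) with h2 | h2 <;> rw [h1, h2] <;> simp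

lemma mulOf_or (ω : ℕ → Bool) (n : ℕ) : mulOf ω n = 1 ∨ mulOf ω n = -1 :=
  prod_or _ _ fun _ _ => ite_or _

lemma mulOf_abs (ω : ℕ → Bool) (n : ℕ) : |mulOf ω n| = 1 := by
  rcases mulOf_or ω n with h | h <;> rw [h] <;> simp

lemma mulOf_signMul (ω : ℕ → Bool) : SignMul (mulOf ω) where
  one := by simp [mulOf]
  mul := by
    intro m n hmn
    unfold mulOf
    rw [hmn.primeFactors_mul, prod_union hmn.disjoint_primeFactors]
    congr 1
    · refine prod_congr rfl fun p hp => ?_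
      rw [Nat.factorization_eq_of_coprime_left hmn (Nat.mem_primeFactors_iff_mem_primeFactorsList.1 hp)]
    · refine prod_congr rfl fun p hp => ?_
      rw [Nat.factorization_eq_of_coprime_right hmn (Nat.mem_primeFactors_iff_mem_primeFactorsList.1 hp)]
  val := fun n _ => mulOf_or ω n

/-- every multiplicative function with values `±1` arises -/
lemma exists_mulOf {f : ℕ → ℝ} (hf : SignMul f) :
    ∃ ω : ℕ → Bool, ∀ n, 1 ≤ n → mulOf ω n = f n := by
  refine ⟨fun k => decide (f k = 1), fun n hn => ?_⟩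
  have h1 := Nat.multiplicative_factorization f (fun x y h => hf.mul x y h) hf.one
    (show n ≠ 0 by omega)
  rw [h1]
  unfold mulOf Finsupp.prod
  rw [Nat.support_factorization]
  refine prod_congr rfl fun p hp => ?_
  have hpp : p.Prime := Nat.prime_of_mem_primeFactors hp
  show (if decide (f (p ^ n.factorization p) = 1) then (1 : ℝ) else -1) =
    f (p ^ n.factorization p)
  rcases hf.val (p ^ n.factorization p) (Nat.pow_pos hpp.pos) with h | h
  · rw [h]; simp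
  · rw [h]
    have : ¬ ((-1 : ℝ) = 1) := by norm_num
    simp [this]

/-- at a prime -/
lemma mulOf_prime (ω : ℕ → Bool) {p : ℕ} (hp : p.Prime) :
    mulOf ω p = if ω p then (1 : ℝ) else -1 := by
  unfold mulOf
  rw [hp.primeFactors, prod_singleton, hp.factorization_self, pow_one]

/-- the values below `n0` depend only on the signs below `n0` -/
lemma mulOf_congr {ω ω' : ℕ → Bool} {n0 : ℕ} (h : ∀ i < n0, ω i = ω' i) {n : ℕ} (hn : n < n0) :
    mulOf ω n = mulOf ω' n := by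
  unfold mulOf
  refine prod_congr rfl fun p hp => ?_
  have hn0 : n ≠ 0 := by
    rintro rfl
    simp at hp
  rw [h _ ((Nat.ordProj_le p hn0).trans_lt hn)]

/-! ### topology -/

lemma cyl_nhds (ω : ℕ → Bool) (n : ℕ) : {ω' : ℕ → Bool | ∀ i < n, ω' i = ω i} ∈ nhds ω := by
  have h1 : IsOpen {ω' : ℕ → Bool | ∀ i < n, ω' i = ω i} := by
    have e : {ω' : ℕ → Bool | ∀ i < n, ω' i = ω i} =
        Set.pi (↑(range n) : Set ℕ) (fun i => {ω i}) := by
      ext ω'
      simp [Set.mem_pi]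
    rw [e]
    exact isOpen_set_pi (range n).finite_toSet fun i _ => isOpen_discrete _
  exact h1.mem_nhds fun i _ => rfl

lemma nhds_cyl {ω : ℕ → Bool} {U : Set (ℕ → Bool)} (hU : U ∈ nhds ω) :
    ∃ n, ∀ ω' : ℕ → Bool, (∀ i < n, ω' i = ω i) → ω' ∈ U := by
  rw [nhds_pi, Filter.mem_pi] at hU
  obtain ⟨I, hI, t, ht, hsub⟩ := hU
  obtain ⟨n, hn⟩ := hI.bddAbove
  refine ⟨n + 1, fun ω' h => hsub ?_⟩
  intro i hi
  rw [h i (Nat.lt_succ_of_le (hn hi))]
  exact mem_of_mem_nhds (ht i)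

/-- `P` holds on an open dense set -/
lemma res_of_cyl {P : (ℕ → Bool) → Prop} (h : ∀ (ω0 : ℕ → Bool) (n0 : ℕ),
    ∃ ω1 : ℕ → Bool, (∀ i < n0, ω1 i = ω0 i) ∧
      ∃ n1 : ℕ, ∀ ω : ℕ → Bool, (∀ i < n1, ω i = ω1 i) → P ω) :
    ∀ᶠ ω in residual (ℕ → Bool), P ω := by
  have h1 : interior {ω | P ω} ∈ residual (ℕ → Bool) := by
    refine residual_of_dense_open isOpen_interior ?_
    rw [dense_iff_inter_open]
    intro U hU hne
    obtain ⟨ω0, hω0⟩ := hne
    obtain ⟨n0, hn0⟩ := nhds_cyl (hU.mem_nhds hω0)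
    obtain ⟨ω1, h2, n1, h3⟩ := h ω0 n0
    refine ⟨ω1, hn0 ω1 h2, ?_⟩
    rw [mem_interior_iff_mem_nhds]
    exact mem_of_superset (cyl_nhds ω1 n1) fun ω hω => h3 ω hω
  exact mem_of_superset h1 interior_subset

/-- the Baire category theorem in a cylinder -/
lemma cyl_of_res {P : ℕ → (ℕ → Bool) → Prop} (hc : ∀ j, IsClosed {ω | P j ω})
    (h : ∀ᶠ ω in residual (ℕ → Bool), ∃ j, P j ω) (ω0 : ℕ → Bool) (n0 : ℕ) :
    ∃ ω1 : ℕ → Bool, (∀ i < n0, ω1 i = ω0 i) ∧
      ∃ n1 j : ℕ, ∀ ω : ℕ → Bool, (∀ i < n1, ω i = ω1 i) → P j ω := by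
  obtain ⟨t, hts, htG, htD⟩ := mem_residual.1 h
  have h1 : Dense (⋃ j, interior {ω | P j ω}) := by
    refine htG.dense_iUnion_interior_of_closed htD hc ?_
    intro ω hω
    obtain ⟨j, hj⟩ := hts hω
    exact Set.mem_iUnion.2 ⟨j, hj⟩
  obtain ⟨U, hUs, hUo, hUm⟩ := mem_nhds_iff.1 (cyl_nhds ω0 n0)
  obtain ⟨ω1, h2, h3⟩ := h1.inter_open_nonempty U hUo ⟨ω0, hUm⟩
  obtain ⟨j, hj⟩ := Set.mem_iUnion.1 h3
  obtain ⟨n1, hn1⟩ := nhds_cyl (mem_interior_iff_mem_nhds.1 hj)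
  exact ⟨ω1, hUs h2, n1, j, hn1⟩

/-- a comeager set meets every cylinder -/
lemma res_meets {P : (ℕ → Bool) → Prop} (h : ∀ᶠ ω in residual (ℕ → Bool), P ω) (ω0 : ℕ → Bool)
    (n0 : ℕ) : ∃ ω : ℕ → Bool, (∀ i < n0, ω i = ω0 i) ∧ P ω := by
  obtain ⟨t, hts, htG, htD⟩ := mem_residual.1 h
  obtain ⟨U, hUs, hUo, hUm⟩ := mem_nhds_iff.1 (cyl_nhds ω0 n0)
  obtain ⟨ω1, h2, h3⟩ := htD.inter_open_nonempty U hUo ⟨ω0, hUm⟩
  exact ⟨ω1, hUs h2, hts h3⟩

end Pool.Agent.TH668.Gen
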