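import Mathlib
import Pool.Agent.TH668.Gen.A

/-! # Generic multiplicative functions are aperiodic -/

set_option autoImplicit false

namespace Pool.Agent.TH668.Gen

open Finset Filter
open Pool.Agent.W257.FS

/-! ### generic aperiodicity -/

/-- the sum over the primes below `N` of `(1 - Re (f p * conj χ p)) / p` -/
noncomputable def PS (f : ℕ → ℝ) {q : ℕ} (χ : DirichletCharacter ℂ q) (N : ℕ) : ℝ :=
  ∑ p ∈ (range N).filter Nat.Prime,
    (1 - ((f p : ℂ) * star (χ ((p : ℕ) : ZMod q))).re) / (p : ℝ)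

lemma re_le_one {q : ℕ} (χ : DirichletCharacter ℂ q) (a : ZMod q) : |(χ a).re| ≤ 1 :=
  (Complex.abs_re_le_norm _).trans (χ.norm_le_one _)

lemma re_mul (t : ℝ) (z : ℂ) : ((t : ℂ) * star z).re = t * z.re := by
  simp

lemma term_nonneg {t : ℝ} (ht : t = 1 ∨ t = -1) {q : ℕ} (χ : DirichletCharacter ℂ q) (p : ℕ) :
    0 ≤ (1 - ((t : ℂ) * star (χ ((p : ℕ) : ZMod q))).re) / (p : ℝ) := by
  refine div_nonneg ?_ (Nat.cast_nonneg _)
  rw [re_mul]
  have h := abs_le.1 (re_le_one χ (p : ZMod q))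
  rcases ht with h1 | h1 <;> rw [h1] <;> linarith [h.1, h.2]

/-- unbounded partial sums -/
lemma far_of {f : ℕ → ℝ} (hf : ∀ n, f n = 1 ∨ f n = -1) {q : ℕ} (χ : DirichletCharacter ℂ q)
    (h : ∀ M : ℕ, ∃ N, (M : ℝ) < PS f χ N) :
    ¬ Summable (fun p : Nat.Primes =>
      (1 - ((f p : ℂ) * star (χ ((p : ℕ) : ZMod q))).re) / ((p : ℕ) : ℝ)) := by
  intro hs
  obtain ⟨M, hM⟩ := exists_nat_ge (∑' p : Nat.Primes,
    (1 - ((f p : ℂ) * star (χ ((p : ℕ) : ZMod q))).re) / ((p : ℕ) : ℝ))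
  obtain ⟨N, hN⟩ := h M
  have h1 : PS f χ N ≤ ∑' p : Nat.Primes,
      (1 - ((f p : ℂ) * star (χ ((p : ℕ) : ZMod q))).re) / ((p : ℕ) : ℝ) := by
    set s : Finset Nat.Primes := (range N).subtype Nat.Prime with hs'
    have e : PS f χ N = ∑ p ∈ s,
        (1 - ((f p : ℂ) * star (χ ((p : ℕ) : ZMod q))).re) / ((p : ℕ) : ℝ) := by
      unfold PS
      rw [← Finset.subtype_map, sum_map]
      rfl
    rw [e]
    exact hs.sum_le_tsum s fun p _ => term_nonneg (hf _) χ p
  linarith

lemma primes_div (n0 : ℕ) (M : ℝ) : ∃ N : ℕ, n0 ≤ N ∧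
    M < ∑ p ∈ (range N).filter (fun p => p.Prime ∧ n0 ≤ p), 1 / (p : ℝ) := by
  set b : ℕ → ℝ := fun n => if n.Prime ∧ n0 ≤ n then 1 / (n : ℝ) else 0 with hb
  have hb0 : ∀ n, 0 ≤ b n := by
    intro n
    simp only [hb]
    split_ifs <;> positivity
  have hns : ¬ Summable b := by
    intro hs
    apply Nat.Primes.not_summable_one_div
    have h1 : Summable (fun p : Nat.Primes => b p) := hs.comp_injective Subtype.val_injective
    refine h1.congr_cofinite ?_
    have hfin : {p : Nat.Primes | (p : ℕ) < n0}.Finite := by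
      refine Set.Finite.preimage (f := fun p : Nat.Primes => (p : ℕ))
        Subtype.val_injective.injOn (Set.finite_Iio n0)
    filter_upwards [hfin.compl_mem_cofinite] with p hp
    have hp' : n0 ≤ (p : ℕ) := by simpa using hp
    simp only [hb]
    rw [if_pos ⟨p.2, hp'⟩]
  have ht := (not_summable_iff_tendsto_nat_atTop_of_nonneg hb0).1 hns
  obtain ⟨N, h1, h2⟩ := ((ht.eventually_gt_atTop M).and (eventually_ge_atTop n0)).exists
  refine ⟨N, h2, ?_⟩
  rw [sum_filter]
  exact h1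

lemma far_dense {q : ℕ} (χ : DirichletCharacter ℂ q) (M : ℕ) :
    ∀ᶠ ω in residual (ℕ → Bool), ∃ N, (M : ℝ) < PS (mulOf ω) χ N := by
  refine res_of_cyl fun ω0 n0 => ?_
  obtain ⟨N, hN0, hN⟩ := primes_div n0 M
  set ω1 : ℕ → Bool := fun i => if i < n0 then ω0 i else decide ((χ (i : ZMod q)).re < 0) with hω1
  refine ⟨ω1, fun i hi => if_pos hi, N, fun ω hω => ⟨N, hN.trans_le ?_⟩⟩
  unfold PS
  have e : (range N).filter (fun p => p.Prime ∧ n0 ≤ p) ⊆ (range N).filter Nat.Prime := by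
    intro p hp
    rw [mem_filter] at hp ⊢
    exact ⟨hp.1, hp.2.1⟩
  calc ∑ p ∈ (range N).filter (fun p => p.Prime ∧ n0 ≤ p), 1 / (p : ℝ) ≤
      ∑ p ∈ (range N).filter (fun p => p.Prime ∧ n0 ≤ p),
        (1 - ((mulOf ω p : ℂ) * star (χ ((p : ℕ) : ZMod q))).re) / (p : ℝ) := by
        refine sum_le_sum fun p hp => ?_
        rw [mem_filter, mem_range] at hp
        obtain ⟨hpN, hp1, hp2⟩ := hp
        refine div_le_div_of_nonneg_right ?_ (Nat.cast_nonneg _)
        rw [re_mul, mulOf_prime ω hp1, hω p hpN]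
        have e1 : ω1 p = decide ((χ (p : ZMod q)).re < 0) := by
          simp only [hω1]
          rw [if_neg (by omega)]
        rw [e1]
        by_cases hneg : (χ (p : ZMod q)).re < 0
        · simp only [hneg, decide_true, if_true]
          linarith
        · simp only [hneg, decide_false]
          push Not at hneg
          simp only [Bool.false_eq_true, if_false]
          linarith
    _ ≤ _ := sum_le_sum_of_subset_of_nonneg e fun p _ _ => term_nonneg (mulOf_or ω p) χ p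

/-- comeager many functions are aperiodic -/
theorem far_generic : ∀ᶠ ω in residual (ℕ → Bool), ∀ (q : ℕ) (χ : DirichletCharacter ℂ q), 1 ≤ q →
    ¬ Summable (fun p : Nat.Primes =>
      (1 - ((mulOf ω p : ℂ) * star (χ ((p : ℕ) : ZMod q))).re) / ((p : ℕ) : ℝ)) := by
  have h1 : ∀ q : ℕ, ∀ᶠ ω in residual (ℕ → Bool), ∀ (χ : DirichletCharacter ℂ q), 1 ≤ q →
      ¬ Summable (fun p : Nat.Primes =>
      (1 - ((mulOf ω p : ℂ) * star (χ ((p : ℕ) : ZMod q))).re) / ((p : ℕ) : ℝ)) := by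
    intro q
    rcases Nat.eq_zero_or_pos q with h0 | h0
    · exact Eventually.of_forall fun ω χ hq => absurd hq (by omega)
    · have : NeZero q := ⟨h0.ne'⟩
      rw [eventually_countable_forall]
      intro χ
      have h2 : ∀ᶠ ω in residual (ℕ → Bool), ∀ M : ℕ, ∃ N, (M : ℝ) < PS (mulOf ω) χ N := by
        rw [eventually_countable_forall]
        exact fun M => far_dense χ M
      filter_upwards [h2] with ω hω _
      exact far_of (mulOf_or ω) χ hω
  have h2 := (eventually_countable_forall (l := residual (ℕ → Bool))).2 h1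
  filter_upwards [h2] with ω hω q χ hq
  exact hω q χ hq

end Pool.Agent.TH668.Gen
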