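import Mathlib
import Pool.Agent.W257.FS.G

/-! # Logarithmic correlations and periodic weights -/

set_option autoImplicit false

namespace Pool.Agent.TH668.Gen

open Finset Filter
open Pool.Agent.W257.FS

/-- the logarithmic correlation of `f` at the shifts in `H` -/
noncomputable def Corr (f : ℕ → ℝ) (H : Finset ℕ) (N : ℕ) : ℝ :=
  (∑ n ∈ Icc 1 N, (∏ h ∈ H, f (n + h)) / n) / Real.log N

lemma prod_mul_symmDiff {a : ℕ → ℝ} (ha : ∀ n, a n = 1 ∨ a n = -1) (A B : Finset ℕ) :
    (∏ i ∈ A, a i) * ∏ i ∈ B, a i = ∏ i ∈ symmDiff A B, a i := by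
  have h1 : ∏ i ∈ A, a i = (∏ i ∈ A \ B, a i) * ∏ i ∈ A ∩ B, a i := by
    rw [← prod_union (disjoint_sdiff_inter A B), sdiff_union_inter]
  have h2 : ∏ i ∈ B, a i = (∏ i ∈ B \ A, a i) * ∏ i ∈ A ∩ B, a i := by
    rw [inter_comm A B, ← prod_union (disjoint_sdiff_inter B A), sdiff_union_inter]
  have h3 : (∏ i ∈ A ∩ B, a i) * ∏ i ∈ A ∩ B, a i = 1 := by
    rw [← prod_mul_distrib]
    refine prod_eq_one fun i _ => ?_
    rcases ha i with h | h <;> rw [h] <;> norm_num
  have h4 : ∏ i ∈ symmDiff A B, a i = (∏ i ∈ A \ B, a i) * ∏ i ∈ B \ A, a i := by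
    rw [← prod_union disjoint_sdiff_sdiff]
    rfl
  rw [h4, h1, h2]
  linear_combination ((∏ i ∈ A \ B, a i) * ∏ i ∈ B \ A, a i) * h3

/-- the translate of `H` -/
def tr (H : Finset ℕ) (m : ℕ) : Finset ℕ := H.image (fun h => h + m)

lemma prod_tr (f : ℕ → ℝ) (H : Finset ℕ) (n m : ℕ) :
    ∏ h ∈ H, f (n + m + h) = ∏ h ∈ tr H m, f (n + h) := by
  unfold tr
  rw [prod_image (fun a _ b _ h => by omega)]
  refine prod_congr rfl fun h _ => ?_
  congr 1
  omega

lemma tr_ne {H : Finset ℕ} (hH : H.Nonempty) {m m' : ℕ} (h : m ≠ m') : tr H m ≠ tr H m' := by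
  intro he
  have key : ∀ m, ∑ x ∈ tr H m, x = ∑ x ∈ H, x + H.card * m := by
    intro m
    unfold tr
    rw [sum_image (fun a _ b _ h => by omega), sum_add_distrib, sum_const, smul_eq_mul]
  have h1 := key m
  have h2 := key m'
  rw [he] at h1
  have h3 : H.card * m = H.card * m' := by omega
  exact h (Nat.eq_of_mul_eq_mul_left hH.card_pos h3)

lemma abs_prod_one {f : ℕ → ℝ} (hf : ∀ n, f n = 1 ∨ f n = -1) (H : Finset ℕ) (n : ℕ) :
    |∏ h ∈ H, f (n + h)| = 1 := by
  rw [abs_prod]
  refine prod_eq_one fun h _ => ?_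
  rcases hf (n + h) with h | h <;> rw [h] <;> simp

/-- periodic weights do not matter once all correlations vanish -/
lemma ap {f : ℕ → ℝ} (hf : ∀ n, f n = 1 ∨ f n = -1)
    (hc : ∀ H : Finset ℕ, H.Nonempty → Tendsto (Corr f H) atTop (nhds 0))
    {H : Finset ℕ} (hH : H.Nonempty) {w : ℕ → ℝ} {Q : ℕ} (hQ : 1 ≤ Q)
    (hw : ∀ n, 1 ≤ n → w (n + Q) = w n) (hw1 : ∀ n, |w n| ≤ 1) :
    Tendsto (fun N : ℕ => (∑ n ∈ Icc 1 N, w n * (∏ h ∈ H, f (n + h)) / n) / Real.log N) atTop
      (nhds 0) := by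
  set F : ℕ → ℝ := fun n => ∏ h ∈ H, f (n + h) with hF
  have hF1 : ∀ n, |F n| = 1 := fun n => abs_prod_one hf H n
  set u : ℕ → ℝ := fun n => w n * F n with hu
  have hu1 : ∀ n, |u n| ≤ 1 := by
    intro n
    simp only [hu]
    rw [abs_mul, hF1, mul_one]
    exact hw1 n
  have hwj : ∀ n, 1 ≤ n → ∀ j, w (n + Q * j) = w n := by
    intro n hn j
    induction j with
    | zero => simp
    | succ j ih =>
      rw [show n + Q * (j + 1) = (n + Q * j) + Q by ring, hw _ (by omega), ih]
  have key : ∀ R : ℕ, 1 ≤ R → ∀ᶠ N : ℕ in atTop,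
      |(∑ n ∈ Icc 1 N, u n / n) / Real.log N| ≤ 4 / R := by
    intro R hR
    have hRr : (1 : ℝ) ≤ R := by exact_mod_cast hR
    set M := R ^ 2 with hM
    have hM1 : 1 ≤ M := Nat.one_le_pow _ _ hR
    have hMr : (1 : ℝ) ≤ M := by exact_mod_cast hM1
    have hMR : (M : ℝ) = R ^ 2 := by rw [hM]; push_cast; ring
    have hlog : Tendsto (fun N : ℕ => Real.log (N : ℝ)) atTop atTop :=
      Real.tendsto_log_atTop.comp tendsto_natCast_atTop_atTop
    have hcor : ∀ᶠ N : ℕ in atTop, ∀ p ∈ (range M ×ˢ range M).filter (fun p => p.1 ≠ p.2),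
        |Corr f (symmDiff (tr H (Q * p.1)) (tr H (Q * p.2))) N| ≤ 1 / M := by
      rw [eventually_all_finset]
      intro p hp
      rw [mem_filter] at hp
      have h1 : (symmDiff (tr H (Q * p.1)) (tr H (Q * p.2))).Nonempty := by
        rw [nonempty_iff_ne_empty]
        intro h
        have h' : symmDiff (tr H (Q * p.1)) (tr H (Q * p.2)) = ⊥ := h
        rw [symmDiff_eq_bot] at h'
        refine tr_ne hH (fun h2 => hp.2 ?_) h'
        exact Nat.eq_of_mul_eq_mul_left hQ h2
      have h2 := (hc _ h1).abs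
      rw [abs_zero] at h2
      exact h2.eventually_le_const (by positivity)
    filter_upwards [hcor, hlog.eventually_ge_atTop (4 * Q * M ^ 2 + 1 : ℝ),
      eventually_ge_atTop 1] with N h1 h2 hN1
    set l := Real.log (N : ℝ) with hl
    have hl1 : 1 ≤ l := by
      have : (0 : ℝ) ≤ 4 * Q * M ^ 2 := by positivity
      linarith
    have hl0 : 0 < l := by linarith
    have hharm := harm_bounds hN1
    have hh : ∑ n ∈ Ioc 0 N, 1 / (n : ℝ) ≤ 2 * l := by
      have := (abs_le.1 hharm).2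
      linarith
    rw [Icc_Ioc]
    set S := ∑ n ∈ Ioc 0 N, u n / n with hS
    set Y : ℕ → ℝ := fun n => ∑ j ∈ range M, F (n + Q * j) with hY
    -- averaging over shifts
    have h3 : |∑ n ∈ Ioc 0 N, w n * Y n / n - M * S| ≤ 4 * Q * M ^ 2 := by
      have e1 : ∑ n ∈ Ioc 0 N, w n * Y n / n =
          ∑ j ∈ range M, ∑ n ∈ Ioc 0 N, u (n + Q * j) / n := by
        rw [sum_comm]
        refine sum_congr rfl fun n hn => ?_
        simp only [hY, hu]
        rw [mul_sum, sum_div]
        refine sum_congr rfl fun j _ => ?_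
        rw [hwj n (mem_Ioc.1 hn).1]
      have e2 : (M : ℝ) * S = ∑ j ∈ range M, S := by rw [sum_const, card_range, nsmul_eq_mul]
      rw [e1, e2, ← sum_sub_distrib]
      calc _ ≤ ∑ j ∈ range M, |∑ n ∈ Ioc 0 N, u (n + Q * j) / n - S| := abs_sum_le_sum_abs _ _
        _ ≤ ∑ j ∈ range M, (4 * Q * M : ℝ) := by
          refine sum_le_sum fun j hj => ?_
          have h4 := shift_many u hu1 N (Q * j)
          refine h4.trans ?_
          have h5 : (j : ℝ) ≤ M := by exact_mod_cast (mem_range.1 hj).le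
          push_cast
          have h6 : (0 : ℝ) ≤ Q := Nat.cast_nonneg _
          nlinarith
        _ = _ := by rw [sum_const, card_range, nsmul_eq_mul]; ring
    -- second moment
    have h4 : ∑ n ∈ Ioc 0 N, Y n ^ 2 / n ≤ 3 * M * l := by
      have e1 : ∑ n ∈ Ioc 0 N, Y n ^ 2 / n = ∑ p ∈ range M ×ˢ range M,
          ∑ n ∈ Ioc 0 N, (∏ h ∈ symmDiff (tr H (Q * p.1)) (tr H (Q * p.2)), f (n + h)) / n := by
        rw [sum_comm]
        refine sum_congr rfl fun n hn => ?_
        rw [← sum_div, sum_product]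
        congr 1
        simp only [hY]
        rw [sq, sum_mul_sum]
        refine sum_congr rfl fun i _ => sum_congr rfl fun j _ => ?_
        simp only [hF]
        rw [prod_tr, prod_tr, prod_mul_symmDiff (a := fun h => f (n + h)) (fun h => hf _)]
      rw [e1, ← sum_filter_add_sum_filter_not (range M ×ˢ range M) (fun p => p.1 ≠ p.2)]
      have e2 : ∑ p ∈ (range M ×ˢ range M).filter (fun p => p.1 ≠ p.2),
          ∑ n ∈ Ioc 0 N, (∏ h ∈ symmDiff (tr H (Q * p.1)) (tr H (Q * p.2)), f (n + h)) / n ≤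
          M * l := by
        calc _ ≤ ∑ p ∈ (range M ×ˢ range M).filter (fun p => p.1 ≠ p.2), (1 / M * l : ℝ) := by
              refine sum_le_sum fun p hp => ?_
              have h5 := (abs_le.1 (h1 p hp)).2
              unfold Corr at h5
              rw [Icc_Ioc, ← hl, div_le_iff₀ hl0] at h5
              exact h5
          _ ≤ ∑ p ∈ (range M ×ˢ range M), (1 / M * l : ℝ) :=
              sum_le_sum_of_subset_of_nonneg (filter_subset _ _) fun _ _ _ => by positivity
          _ = M * l := by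
              rw [sum_const, card_product, card_range, nsmul_eq_mul]
              push_cast
              field_simp
      have e3 : ∑ p ∈ (range M ×ˢ range M).filter (fun p => ¬ p.1 ≠ p.2),
          ∑ n ∈ Ioc 0 N, (∏ h ∈ symmDiff (tr H (Q * p.1)) (tr H (Q * p.2)), f (n + h)) / n ≤
          2 * M * l := by
        have e4 : ∀ p ∈ (range M ×ˢ range M).filter (fun p => ¬ p.1 ≠ p.2),
            ∑ n ∈ Ioc 0 N, (∏ h ∈ symmDiff (tr H (Q * p.1)) (tr H (Q * p.2)), f (n + h)) / n =
            ∑ n ∈ Ioc 0 N, 1 / (n : ℝ) := by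
          intro p hp
          have h5 : p.1 = p.2 := by simpa using (mem_filter.1 hp).2
          rw [h5, symmDiff_self]
          refine sum_congr rfl fun n _ => ?_
          simp
        rw [sum_congr rfl e4, sum_const, nsmul_eq_mul]
        have e5 : ((range M ×ˢ range M).filter (fun p => ¬ p.1 ≠ p.2)).card ≤ M := by
          calc _ ≤ ((range M).image (fun i => (i, i))).card := by
                refine card_le_card fun p hp => ?_
                rw [mem_filter, mem_product] at hp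
                have h5 : p.1 = p.2 := by simpa using hp.2
                exact mem_image.2 ⟨p.1, hp.1.1, Prod.ext rfl h5⟩
            _ ≤ M := card_image_le.trans (card_range M).le
        have e6 : (((range M ×ˢ range M).filter (fun p => ¬ p.1 ≠ p.2)).card : ℝ) ≤ M := by
          exact_mod_cast e5
        calc _ ≤ (M : ℝ) * (2 * l) := by
              refine mul_le_mul e6 hh ?_ (by positivity)
              exact sum_nonneg fun _ _ => by positivity
          _ = _ := by ring
      linarith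
    -- first moment
    have h5 : |∑ n ∈ Ioc 0 N, w n * Y n / n| ≤ R / 2 * (2 * l) + 1 / (2 * R) * (3 * M * l) := by
      calc _ ≤ ∑ n ∈ Ioc 0 N, |w n * Y n / n| := abs_sum_le_sum_abs _ _
        _ ≤ ∑ n ∈ Ioc 0 N, (R / 2 * (1 / n) + 1 / (2 * R) * (Y n ^ 2 / n)) := by
          refine sum_le_sum fun n _ => ?_
          rw [abs_div, Nat.abs_cast, abs_mul]
          have h6 : |Y n| ≤ R / 2 + 1 / (2 * R) * Y n ^ 2 := by
            have h7 : 0 ≤ (R - |Y n|) ^ 2 := sq_nonneg _
            have h8 : |Y n| ^ 2 = Y n ^ 2 := sq_abs _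
            have h9 : R / 2 + 1 / (2 * R) * Y n ^ 2 - |Y n| = (R - |Y n|) ^ 2 / (2 * R) := by
              rw [← h8]
              field_simp
              ring
            have h10 : 0 ≤ (R - |Y n|) ^ 2 / (2 * (R : ℝ)) := by positivity
            linarith
          have h7 : |w n| * |Y n| ≤ R / 2 + 1 / (2 * R) * Y n ^ 2 := by
            calc _ ≤ 1 * |Y n| := mul_le_mul_of_nonneg_right (hw1 n) (abs_nonneg _)
              _ = |Y n| := one_mul _
              _ ≤ _ := h6
          calc _ ≤ (R / 2 + 1 / (2 * R) * Y n ^ 2) / (n : ℝ) :=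
                div_le_div_of_nonneg_right h7 (Nat.cast_nonneg _)
            _ = _ := by ring
        _ = R / 2 * ∑ n ∈ Ioc 0 N, 1 / (n : ℝ) + 1 / (2 * R) * ∑ n ∈ Ioc 0 N, Y n ^ 2 / n := by
          rw [sum_add_distrib, mul_sum, mul_sum]
        _ ≤ _ := by gcongr
    have h6 : |M * S| ≤ 4 * M / R * l := by
      have h7 : |M * S| ≤ |∑ n ∈ Ioc 0 N, w n * Y n / n| +
          |∑ n ∈ Ioc 0 N, w n * Y n / n - M * S| := by
        have e : (M : ℝ) * S = ∑ n ∈ Ioc 0 N, w n * Y n / n -
          (∑ n ∈ Ioc 0 N, w n * Y n / n - M * S) := by ring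
        rw [e]
        refine (abs_sub _ _).trans (le_of_eq ?_)
        congr 2
        ring
      have h8 : (4 * Q * M ^ 2 : ℝ) ≤ l := by linarith
      have h9 : R / 2 * (2 * l) + 1 / (2 * R) * (3 * M * l) = 5 / 2 * R * l := by
        rw [hMR]
        field_simp
        ring
      have h10 : 4 * (M : ℝ) / R * l = 4 * R * l := by
        rw [hMR]
        field_simp
      rw [h10]
      rw [h9] at h5
      nlinarith
    rw [abs_mul, abs_of_pos (show (0 : ℝ) < M by linarith)] at h6
    rw [abs_div, abs_of_pos hl0, div_le_iff₀ hl0]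
    have hM0 : (0 : ℝ) < M := by linarith
    have h11 : (M : ℝ) * |S| ≤ M * (4 / R * l) := by
      calc _ ≤ 4 * M / R * l := h6
        _ = _ := by ring
    exact le_of_mul_le_mul_left h11 hM0
  rw [Metric.tendsto_nhds]
  intro ε hε
  obtain ⟨R, hR⟩ := exists_nat_gt (4 / ε)
  have hR0 : (0 : ℝ) < R := (by positivity : (0 : ℝ) < 4 / ε).trans hR
  have hR1 : 1 ≤ R := by exact_mod_cast hR0
  filter_upwards [key R hR1] with N hN
  rw [Real.dist_eq, sub_zero]
  refine lt_of_le_of_lt hN ?_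
  rw [div_lt_iff₀ hε] at hR
  rw [div_lt_iff₀ hR0]
  linarith

end Pool.Agent.TH668.Gen
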