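import Mathlib
import Pool.Agent.TH668.Gen.A
import Pool.Agent.TH668.Gen.C

/-! # Changing finitely many signs -/

set_option autoImplicit false

namespace Pool.Agent.TH668.Gen

open Finset Filter
open Pool.Agent.W257.FS

/-! ### changing finitely many signs -/

/-- `ω` with the signs below `n0` replaced by those of `ω0` -/
def sw (ω0 : ℕ → Bool) (n0 : ℕ) (ω : ℕ → Bool) : ℕ → Bool := fun i => if i < n0 then ω0 i else ω i

/-- the quotient -/
noncomputable def gg (ω0 : ℕ → Bool) (n0 : ℕ) (ω : ℕ → Bool) (n : ℕ) : ℝ :=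
  mulOf (sw ω0 n0 ω) n * mulOf ω n

lemma sw_mul (ω0 : ℕ → Bool) (n0 : ℕ) (ω : ℕ → Bool) (n : ℕ) :
    mulOf (sw ω0 n0 ω) n = gg ω0 n0 ω n * mulOf ω n := by
  unfold gg
  rcases mulOf_or ω n with h | h <;> rw [h] <;> ring

lemma gg_or (ω0 : ℕ → Bool) (n0 : ℕ) (ω : ℕ → Bool) (n : ℕ) :
    gg ω0 n0 ω n = 1 ∨ gg ω0 n0 ω n = -1 := by
  unfold gg
  rcases mulOf_or ω n with h | h <;> rcases mulOf_or (sw ω0 n0 ω) n with h' | h' <;>
    rw [h, h'] <;> simp

/-- the local factor -/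
noncomputable def cc (ω0 : ℕ → Bool) (n0 : ℕ) (ω : ℕ → Bool) (k : ℕ) : ℝ :=
  (if sw ω0 n0 ω k then (1 : ℝ) else -1) * (if ω k then (1 : ℝ) else -1)

lemma cc_one {ω0 : ℕ → Bool} {n0 : ℕ} {ω : ℕ → Bool} {k : ℕ} (hk : n0 ≤ k) :
    cc ω0 n0 ω k = 1 := by
  unfold cc sw
  rw [if_neg (show ¬ k < n0 by omega)]
  cases ω k <;> simp

lemma gg_eq (ω0 : ℕ → Bool) (n0 : ℕ) (ω : ℕ → Bool) {n : ℕ} (hn : 1 ≤ n) :
    gg ω0 n0 ω n = ∏ p ∈ (range n0).filter Nat.Prime,
      if p ∣ n then cc ω0 n0 ω (p ^ n.factorization p) else 1 := by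
  have hn0 : n ≠ 0 := by omega
  unfold gg mulOf
  rw [← prod_mul_distrib]
  have e1 : ∏ p ∈ n.primeFactors, ((if sw ω0 n0 ω (p ^ n.factorization p) then (1 : ℝ) else -1) *
      if ω (p ^ n.factorization p) then (1 : ℝ) else -1) =
      ∏ p ∈ n.primeFactors, cc ω0 n0 ω (p ^ n.factorization p) := rfl
  rw [e1, ← prod_filter]
  symm
  refine prod_subset ?_ ?_
  · intro p hp
    rw [mem_filter, mem_filter] at hp
    exact Nat.mem_primeFactors.2 ⟨hp.1.2, hp.2, hn0⟩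
  · intro p hp hp'
    rw [Nat.mem_primeFactors] at hp
    have h1 : n0 ≤ p := by
      by_contra hlt
      apply hp'
      rw [mem_filter, mem_filter, mem_range]
      exact ⟨⟨by omega, hp.1⟩, hp.2.1⟩
    apply cc_one
    have h2 : 0 < n.factorization p := hp.1.factorization_pos_of_dvd hn0 hp.2.1
    exact h1.trans (Nat.le_self_pow h2.ne' p)

/-- the period -/
def QQ (n0 : ℕ) : ℕ := (n0.factorial) ^ (n0 + 1)

lemma QQ_pos (n0 : ℕ) : 1 ≤ QQ n0 := Nat.one_le_pow _ _ n0.factorial_pos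

lemma gg_periodic (ω0 : ℕ → Bool) (n0 : ℕ) (ω : ℕ → Bool) {n : ℕ} (hn : 1 ≤ n) :
    gg ω0 n0 ω (n + QQ n0) = gg ω0 n0 ω n := by
  rw [gg_eq ω0 n0 ω hn, gg_eq ω0 n0 ω (by omega)]
  refine prod_congr rfl fun p hp => ?_
  rw [mem_filter, mem_range] at hp
  obtain ⟨hpn, hp⟩ := hp
  have hdQ : p ^ (n0 + 1) ∣ QQ n0 := pow_dvd_pow_of_dvd (Nat.dvd_factorial hp.pos hpn.le) _
  have hk : ∀ k ≤ n0 + 1, (p ^ k ∣ n + QQ n0 ↔ p ^ k ∣ n) := by
    intro k hk
    exact (Nat.dvd_add_iff_left ((pow_dvd_pow p hk).trans hdQ)).symm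
  have h1 : p ∣ n + QQ n0 ↔ p ∣ n := by simpa using hk 1 (by omega)
  have hfac : ∀ k ≤ n0 + 1, (k ≤ (n + QQ n0).factorization p ↔ k ≤ n.factorization p) := by
    intro k hk'
    rw [← hp.pow_dvd_iff_le_factorization (by omega), ← hp.pow_dvd_iff_le_factorization (by omega)]
    exact hk k hk'
  by_cases hd : p ∣ n
  · rw [if_pos hd, if_pos (h1.2 hd)]
    by_cases hv : n0 + 1 ≤ n.factorization p
    · have hv' := (hfac (n0 + 1) le_rfl).2 hv
      have hbig : ∀ v, n0 + 1 ≤ v → n0 ≤ p ^ v := fun v hv =>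
        (by omega : n0 ≤ v).trans (Nat.lt_pow_self hp.one_lt).le
      rw [cc_one (hbig _ hv), cc_one (hbig _ hv')]
    · have h2 := (hfac (n.factorization p) (by omega)).2 le_rfl
      have h3 : (n + QQ n0).factorization p ≤ n.factorization p := by
        by_contra hlt
        push Not at hlt
        have := (hfac (n.factorization p + 1) (by omega)).1 hlt
        omega
      rw [le_antisymm h3 h2]
  · rw [if_neg hd, if_neg (fun h => hd (h1.1 h))]

/-- vanishing correlations are stable under changing finitely many signs -/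
theorem corr_sw {ω : ℕ → Bool}
    (hc : ∀ H : Finset ℕ, H.Nonempty → Tendsto (Corr (mulOf ω) H) atTop (nhds 0))
    (ω0 : ℕ → Bool) (n0 : ℕ) {H : Finset ℕ} (hH : H.Nonempty) :
    Tendsto (Corr (mulOf (sw ω0 n0 ω)) H) atTop (nhds 0) := by
  have h1 := ap (mulOf_or ω) hc hH (w := fun n => ∏ h ∈ H, gg ω0 n0 ω (n + h)) (QQ_pos n0)
    (fun n hn => prod_congr rfl fun h _ => by
      rw [show n + QQ n0 + h = n + h + QQ n0 by ring]
      exact gg_periodic ω0 n0 ω (by omega)) (fun n => (abs_prod_one (gg_or ω0 n0 ω) H n).le)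
  refine h1.congr fun N => ?_
  unfold Corr
  congr 1
  refine sum_congr rfl fun n _ => ?_
  rw [← prod_mul_distrib]
  congr 1
  refine prod_congr rfl fun h _ => ?_
  rw [sw_mul ω0 n0 ω]

end Pool.Agent.TH668.Gen
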