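import Mathlib
import Pool.Agent.TH668.Gen.C

/-! # Vanishing correlations and the Bernoulli measure -/

set_option autoImplicit false

namespace Pool.Agent.TH668.Gen

open Finset Filter MeasureTheory
open Pool.Agent.W257.FS

/-! ### vanishing correlations and the Bernoulli system -/

lemma harm_tendsto : Tendsto (fun N : ℕ => (∑ n ∈ Ioc 0 N, 1 / (n : ℝ)) / Real.log N) atTop
    (nhds 1) := by
  have hlog : Tendsto (fun N : ℕ => Real.log (N : ℝ)) atTop atTop :=
    Real.tendsto_log_atTop.comp tendsto_natCast_atTop_atTop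
  rw [Metric.tendsto_nhds]
  intro ε hε
  filter_upwards [hlog.eventually_gt_atTop (1 / ε), hlog.eventually_gt_atTop 0,
    eventually_ge_atTop 1] with N h1 h2 h3
  have h4 := harm_bounds h3
  rw [Real.dist_eq]
  have e : (∑ n ∈ Ioc 0 N, 1 / (n : ℝ)) / Real.log N - 1 =
      (∑ n ∈ Ioc 0 N, 1 / (n : ℝ) - Real.log N) / Real.log N := by
    field_simp
  rw [e, abs_div, abs_of_pos h2, div_lt_iff₀ h2]
  have h5 : 1 < ε * Real.log N := by
    rw [div_lt_iff₀ hε] at h1
    linarith
  linarith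

lemma ind_eq {f : ℕ → ℝ} (hf : ∀ n, f n = 1 ∨ f n = -1) {L : ℕ} (b : Fin L → Bool) (n : ℕ)
    [Decidable (∀ (j : Fin L) (_ : Fin 1), f (n + (j : ℕ)) = sgn (b j))] :
    (if (∀ (j : Fin L) (_ : Fin 1), f (n + (j : ℕ)) = sgn (b j)) then (1 : ℝ) else 0) =
      (1 / 2 ^ L) * ∑ T : Finset (Fin L), (∏ j ∈ T, sgn (b j)) *
        ∏ h ∈ T.image (fun j : Fin L => (j : ℕ)), f (n + h) := by
  have e0 : ∀ T : Finset (Fin L), (∏ j ∈ T, sgn (b j)) *
        ∏ h ∈ T.image (fun j : Fin L => (j : ℕ)), f (n + h) =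
        ∏ j ∈ T, (sgn (b j) * f (n + (j : ℕ))) := by
    intro T
    rw [prod_image (fun a _ c _ h => Fin.ext h), prod_mul_distrib]
  rw [sum_congr rfl fun T _ => e0 T]
  have e1 : ∑ T : Finset (Fin L), ∏ j ∈ T, (sgn (b j) * f (n + (j : ℕ))) =
      ∏ j : Fin L, (1 + sgn (b j) * f (n + (j : ℕ))) := by
    rw [Finset.prod_one_add, powerset_univ]
  rw [e1]
  split_ifs with hall
  · have e2 : ∀ j : Fin L, 1 + sgn (b j) * f (n + (j : ℕ)) = 2 := by
      intro j
      rw [hall j 0]
      rcases sgn_or (b j) with h | h <;> rw [h] <;> norm_num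
    rw [prod_congr rfl fun j _ => e2 j, prod_const, card_univ, Fintype.card_fin]
    field_simp
  · push Not at hall
    obtain ⟨j, -, hj⟩ := hall
    have e3 : 1 + sgn (b j) * f (n + (j : ℕ)) = 0 := by
      rcases sgn_or (b j) with h1 | h1 <;> rcases hf (n + (j : ℕ)) with h2 | h2 <;>
        first | exact absurd (h2.trans h1.symm) hj | (rw [h1, h2]; norm_num)
    rw [prod_eq_zero (mem_univ j) e3, mul_zero]

/-- vanishing correlations: the Bernoulli measure is the only Furstenberg system -/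
theorem furst_of_corr {f : ℕ → ℝ} (hs : SignMul f) (hf : ∀ n, f n = 1 ∨ f n = -1)
    (hc : ∀ H : Finset ℕ, H.Nonempty → Tendsto (Corr f H) atTop (nhds 0))
    (μ : Measure (ℤ → ℝ)) : IsFurst f μ ↔ μ = bern := by
  classical
  refine furst_unique (fun F hFc hFb => weak hs le_rfl (fun L b => ?_) F hFc hFb) μ
  have e1 : ∀ N : ℕ, LF (fun _ : Fin 1 => f) (fun j : Fin L => (j : ℕ)) (fun j _ => sgn (b j)) N =
      ∑ T : Finset (Fin L), (1 / 2 ^ L) * (∏ j ∈ T, sgn (b j)) *
        Corr f (T.image (fun j : Fin L => (j : ℕ))) N := by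
    intro N
    unfold LF Corr
    rw [sum_filter]
    have e2 : ∀ n ∈ Ioc 0 N, (if (∀ (j : Fin L) (_ : Fin 1), f (n + (j : ℕ)) = sgn (b j)) then
        1 / (n : ℝ) else 0) = ∑ T : Finset (Fin L), (1 / 2 ^ L) * (∏ j ∈ T, sgn (b j)) *
        ((∏ h ∈ T.image (fun j : Fin L => (j : ℕ)), f (n + h)) / n) := by
      intro n _
      have e3 : (if (∀ (j : Fin L) (_ : Fin 1), f (n + (j : ℕ)) = sgn (b j)) then
          1 / (n : ℝ) else 0) = (if (∀ (j : Fin L) (_ : Fin 1), f (n + (j : ℕ)) = sgn (b j)) then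
          (1 : ℝ) else 0) * (1 / n) := by
        split_ifs <;> ring
      rw [e3, ind_eq hf b n, mul_sum, sum_mul]
      refine sum_congr rfl fun T _ => ?_
      ring
    rw [sum_congr rfl e2, sum_comm, sum_div]
    refine sum_congr rfl fun T _ => ?_
    rw [← mul_sum, Icc_Ioc, mul_div_assoc]
  have e4 : (1 / 2 ^ L : ℝ) = ∑ T : Finset (Fin L), (1 / 2 ^ L) * (∏ j ∈ T, sgn (b j)) *
      (if T = ∅ then 1 else 0) := by
    rw [sum_eq_single ∅]
    · simp
    · intro T _ hT
      rw [if_neg hT, mul_zero]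
    · intro h
      exact absurd (mem_univ _) h
  rw [e4]
  refine Tendsto.congr (fun N => (e1 N).symm) (tendsto_finsetSum _ fun T _ => ?_)
  refine Tendsto.const_mul _ ?_
  by_cases hT : T = ∅
  · rw [if_pos hT, hT]
    refine harm_tendsto.congr fun N => ?_
    unfold Corr
    rw [Icc_Ioc]
    simp
  · rw [if_neg hT]
    exact hc _ ((nonempty_iff_ne_empty.2 hT).image _)

/-- the truncation to `[-1, 1]` -/
noncomputable def cl (t : ℝ) : ℝ := max (-1) (min 1 t)

lemma cl_cont : Continuous cl := by unfold cl; fun_prop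

lemma cl_abs (t : ℝ) : |cl t| ≤ 1 := by
  unfold cl
  rw [abs_le]
  exact ⟨le_max_left _ _, max_le (by norm_num) (min_le_left _ _)⟩

lemma cl_or {t : ℝ} (ht : |t| ≤ 1) : cl t = t := by
  unfold cl
  rw [abs_le] at ht
  rw [min_eq_right ht.2, max_eq_right ht.1]

/-- the coordinate product -/
noncomputable def FH (H : Finset ℕ) (x : ℤ → ℝ) : ℝ := ∏ h ∈ H, cl (x (h : ℤ))

lemma FH_cont (H : Finset ℕ) : Continuous (FH H) :=
  continuous_finsetProd _ fun h _ => cl_cont.comp (continuous_apply (h : ℤ))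

lemma FH_abs (H : Finset ℕ) (x : ℤ → ℝ) : |FH H x| ≤ 1 := by
  unfold FH
  rw [abs_prod]
  exact prod_le_one (fun _ _ => abs_nonneg _) fun _ _ => cl_abs _

lemma logAvg_FH {f : ℕ → ℝ} (hf : ∀ n, f n = 1 ∨ f n = -1) (H : Finset ℕ) (N : ℕ) :
    logAvg f (FH H) N = Corr f H N := by
  unfold logAvg Corr FH
  congr 1
  refine sum_congr rfl fun n hn => ?_
  congr 1
  refine prod_congr rfl fun h _ => ?_
  have hn1 : 1 ≤ n := (mem_Icc.1 hn).1
  have e1 : xf f ((h : ℤ) + n) = f (n + h) := by
    unfold xf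
    rw [if_pos (by omega), show ((h : ℤ) + n).toNat = n + h by omega]
  show cl (xf f ((h : ℤ) + n)) = f (n + h)
  rw [e1]
  refine cl_or ?_
  rcases hf (n + h) with h1 | h1 <;> rw [h1] <;> simp

lemma int_FH {H : Finset ℕ} (hH : H.Nonempty) : ∫ x, FH H x ∂bern = 0 := by
  obtain ⟨h0, hh0⟩ := hH
  set m := H.sup id with hm
  have hle : ∀ h ∈ H, h ≤ m := fun h hh => le_sup (f := id) hh
  have h1 := int_close (FH_cont H) (fun x => FH_abs H x) (m := m) (ε := 0) (fun x y _ _ hxy => by
    have : FH H x = FH H y := by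
      unfold FH
      refine prod_congr rfl fun h hh => ?_
      rw [hxy (h : ℤ) (by
        have := hle h hh
        rw [mem_Icc]
        omega)]
    rw [this]; simp)
  have h2 : ∑ b : Fin (2 * m + 1) → Bool, 1 / 2 ^ (2 * m + 1) * FH H (EE m b) = 0 := by
    have hlt : h0 + m < 2 * m + 1 := by have := hle h0 hh0; omega
    set j0 : Fin (2 * m + 1) := ⟨h0 + m, hlt⟩ with hj0
    have hE : ∀ (b : Fin (2 * m + 1) → Bool) (h : ℕ) (hh : h + m < 2 * m + 1),
        EE m b (h : ℤ) = sgn (b ⟨h + m, hh⟩) := by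
      intro b h hh
      have e := EE_apply m b ⟨h + m, hh⟩
      rw [← e]
      congr 1
      push_cast
      ring
    have hflip : ∀ b : Fin (2 * m + 1) → Bool,
        FH H (EE m (Function.update b j0 (!b j0))) = - FH H (EE m b) := by
      intro b
      unfold FH
      rw [← mul_prod_erase H _ hh0, ← mul_prod_erase H (fun h => cl (EE m b (h : ℤ))) hh0]
      have e1 : cl (EE m (Function.update b j0 (!b j0)) (h0 : ℤ)) = - cl (EE m b (h0 : ℤ)) := by
        rw [hE _ h0 hlt, hE _ h0 hlt, ← hj0, Function.update_self]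
        rw [cl_or (by rcases sgn_or (!b j0) with h | h <;> rw [h] <;> simp),
          cl_or (by rcases sgn_or (b j0) with h | h <;> rw [h] <;> simp)]
        cases b j0 <;> simp [sgn]
      have e2 : ∏ h ∈ H.erase h0, cl (EE m (Function.update b j0 (!b j0)) (h : ℤ)) =
          ∏ h ∈ H.erase h0, cl (EE m b (h : ℤ)) := by
        refine prod_congr rfl fun h hh => ?_
        rw [mem_erase] at hh
        have hlt' : h + m < 2 * m + 1 := by have := hle h hh.2; omega
        rw [hE _ h hlt', hE _ h hlt', Function.update_of_ne]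
        intro he
        rw [hj0, Fin.mk.injEq] at he
        exact hh.1 (by omega)
      rw [e1, e2]
      ring
    refine sum_involution (fun b _ => Function.update b j0 (!b j0)) ?_ ?_ ?_ ?_
    · intro b _
      rw [hflip]
      ring
    · intro b _ _ he
      have := congrFun he j0
      rw [Function.update_self] at this
      cases hb : b j0 <;> rw [hb] at this <;> simp at this
    · intro b _
      exact mem_univ _
    · intro b _
      funext j
      by_cases hj : j = j0
      · rw [hj]; simp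
      · rw [Function.update_of_ne hj, Function.update_of_ne hj]
  rw [h2, sub_zero] at h1
  exact abs_nonpos_iff.1 h1

/-- if `bern` is a Furstenberg system then a correlation that converges tends to zero -/
theorem corr_zero {f : ℕ → ℝ} (hf : ∀ n, f n = 1 ∨ f n = -1) (hb : IsFurst f bern)
    {H : Finset ℕ} (hH : H.Nonempty) {l : ℝ} (hl : Tendsto (Corr f H) atTop (nhds l)) : l = 0 := by
  obtain ⟨-, N, hN, hlim⟩ := hb
  have h1 := hlim (FH H) (FH_cont H) ⟨1, FH_abs H⟩
  rw [int_FH hH] at h1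
  have h2 : Tendsto (fun i => Corr f H (N i)) atTop (nhds 0) :=
    h1.congr fun i => logAvg_FH hf H (N i)
  exact tendsto_nhds_unique (hl.comp hN) h2

end Pool.Agent.TH668.Gen
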