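import Mathlib
import Pool.Agent.TH668.Gen.D

/-! # Limit points of correlations and Furstenberg systems -/

set_option autoImplicit false

namespace Pool.Agent.TH668.Gen

open Finset Filter MeasureTheory
open Pool.Agent.W257.FS

/-! ### limit points of correlations -/

lemma corr_bound {f : ℕ → ℝ} (hf : ∀ n, f n = 1 ∨ f n = -1) (H : Finset ℕ) {N : ℕ}
    (hN : 1 ≤ Real.log N) : |Corr f H N| ≤ 2 := by
  have hl0 : 0 < Real.log (N : ℝ) := by linarith
  have hN1 : 1 ≤ N := by
    rcases Nat.eq_zero_or_pos N with h | h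
    · rw [h] at hl0; simp at hl0
    · exact h
  unfold Corr
  rw [abs_div, abs_of_pos hl0, div_le_iff₀ hl0, Icc_Ioc]
  calc _ ≤ ∑ n ∈ Ioc 0 N, |(∏ h ∈ H, f (n + h)) / n| := abs_sum_le_sum_abs _ _
    _ = ∑ n ∈ Ioc 0 N, 1 / (n : ℝ) := by
      refine sum_congr rfl fun n _ => ?_
      rw [abs_div, abs_prod_one hf, Nat.abs_cast]
    _ ≤ 2 * Real.log N := by
      have := (abs_le.1 (harm_bounds hN1)).2
      linarith

lemma corr_slow {f : ℕ → ℝ} (hf : ∀ n, f n = 1 ∨ f n = -1) (H : Finset ℕ) :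
    Tendsto (fun N : ℕ => Corr f H (N + 1) - Corr f H N) atTop (nhds 0) := by
  have hlog : Tendsto (fun N : ℕ => Real.log (N : ℝ)) atTop atTop :=
    Real.tendsto_log_atTop.comp tendsto_natCast_atTop_atTop
  have h3 : Tendsto (fun N : ℕ => 3 / Real.log (N : ℝ)) atTop (nhds 0) :=
    hlog.const_div_atTop _
  refine squeeze_zero_norm' ?_ h3
  filter_upwards [hlog.eventually_ge_atTop 1, eventually_ge_atTop 1] with N hl hN
  have hN0 : (1 : ℝ) ≤ N := by exact_mod_cast hN
  set a := ∏ h ∈ H, f (N + 1 + h) with ha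
  have ha1 : |a| = 1 := abs_prod_one hf H (N + 1)
  have hle : Real.log N ≤ Real.log ((N : ℝ) + 1) := Real.log_le_log (by linarith) (by linarith)
  have hl0 : 0 < Real.log (N : ℝ) := by linarith
  have hl1 : 0 < Real.log ((N : ℝ) + 1) := by linarith
  have hdiff : Real.log ((N : ℝ) + 1) - Real.log N ≤ 1 := by
    have h5 : Real.log ((N : ℝ) + 1) - Real.log N = Real.log (((N : ℝ) + 1) / N) := by
      rw [Real.log_div (by linarith) (by linarith)]
    rw [h5]
    have h6 := Real.log_le_sub_one_of_pos (show 0 < ((N : ℝ) + 1) / N by positivity)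
    have h7 : ((N : ℝ) + 1) / N - 1 ≤ 1 := by
      rw [add_div, div_self (by linarith)]
      have : 1 / (N : ℝ) ≤ 1 := by
        rw [div_le_one (by linarith)]; exact hN0
      linarith
    linarith
  have hC := corr_bound hf H hl
  have e : Corr f H (N + 1) - Corr f H N =
      (a / ((N : ℝ) + 1) - (Real.log ((N : ℝ) + 1) - Real.log N) * Corr f H N) /
        Real.log ((N : ℝ) + 1) := by
    have e1 : Corr f H (N + 1) = (Corr f H N * Real.log N + a / ((N : ℝ) + 1)) /
        Real.log ((N : ℝ) + 1) := by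
      unfold Corr
      rw [div_mul_cancel₀ _ hl0.ne', sum_Icc_succ_top (by omega)]
      push_cast
      rfl
    rw [e1]
    field_simp
    ring
  rw [e, Real.norm_eq_abs, abs_div, abs_of_pos hl1]
  have h8 : |a / ((N : ℝ) + 1) - (Real.log ((N : ℝ) + 1) - Real.log N) * Corr f H N| ≤ 3 := by
    refine (abs_sub _ _).trans ?_
    have h9 : |a / ((N : ℝ) + 1)| ≤ 1 := by
      rw [abs_div, ha1, abs_of_pos (by linarith : (0 : ℝ) < (N : ℝ) + 1), div_le_one (by linarith)]
      linarith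
    have h10 : |(Real.log ((N : ℝ) + 1) - Real.log N) * Corr f H N| ≤ 2 := by
      rw [abs_mul, abs_of_nonneg (by linarith : (0 : ℝ) ≤ Real.log ((N : ℝ) + 1) - Real.log N)]
      nlinarith [abs_nonneg (Corr f H N)]
    linarith
  calc _ ≤ 3 / Real.log ((N : ℝ) + 1) := div_le_div_of_nonneg_right h8 hl1.le
    _ ≤ _ := by gcongr

/-- a slowly varying sequence takes every intermediate value in the limit -/
lemma ivt {u : ℕ → ℝ} (hu : Tendsto (fun N => u (N + 1) - u N) atTop (nhds 0)) {c : ℝ}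
    (h1 : ∃ᶠ N in atTop, u N < c) (h2 : ∃ᶠ N in atTop, c ≤ u N) :
    ∃ N : ℕ → ℕ, Tendsto N atTop atTop ∧ Tendsto (fun i => u (N i)) atTop (nhds c) := by
  have key : ∀ i : ℕ, ∃ N, i ≤ N ∧ u N < c ∧ c ≤ u (N + 1) := by
    intro i
    obtain ⟨a, ha1, ha2⟩ := (frequently_atTop.1 h1) i
    obtain ⟨b, hb1, hb2⟩ := (frequently_atTop.1 h2) a
    by_contra hcon
    push Not at hcon
    have h3 : ∀ k, u (a + k) < c := by
      intro k
      induction k with
      | zero => exact ha2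
      | succ k ih => exact hcon (a + k) (by omega) ih
    have h4 := h3 (b - a)
    rw [show a + (b - a) = b by omega] at h4
    linarith
  choose N hN1 hN2 hN3 using key
  have hN : Tendsto N atTop atTop := tendsto_atTop_mono hN1 tendsto_id
  refine ⟨N, hN, ?_⟩
  have h5 := hu.comp hN
  have h6 : Tendsto (fun i => c - (u (N i + 1) - u (N i))) atTop (nhds c) := by
    have := h5.const_sub c
    simpa using this
  refine tendsto_of_tendsto_of_tendsto_of_le_of_le h6 tendsto_const_nhds (fun i => ?_)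
    (fun i => (hN2 i).le)
  have := hN3 i
  show c - (u (N i + 1) - u (N i)) ≤ u (N i)
  linarith

/-! ### existence of Furstenberg systems -/

/-- the total mass -/
noncomputable def hm (N : ℕ) : ℝ := ∑ n ∈ Icc 1 N, 1 / (n : ℝ)

lemma hm_pos {N : ℕ} (hN : 1 ≤ N) : 0 < hm N := by
  unfold hm
  have h1 : (1 : ℝ) / (1 : ℕ) ≤ ∑ n ∈ Icc 1 N, 1 / (n : ℝ) :=
    single_le_sum (f := fun n : ℕ => 1 / (n : ℝ)) (fun _ _ => by positivity)
      (mem_Icc.2 ⟨le_rfl, hN⟩)
  have : (1 : ℝ) / (1 : ℕ) = 1 := by norm_num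
  linarith

/-- the shifted point -/
noncomputable def pt (f : ℕ → ℝ) (n : ℕ) : ℤ → ℝ := fun k => xf f (k + n)

lemma pt_abs {f : ℕ → ℝ} (hf : ∀ n, f n = 1 ∨ f n = -1) (n : ℕ) (k : ℤ) : |pt f n k| ≤ 1 := by
  unfold pt xf
  split_ifs
  · rcases hf (k + n).toNat with h | h <;> rw [h] <;> simp
  · simp

/-- the normalized logarithmic averages of the point masses -/
noncomputable def nu (f : ℕ → ℝ) (N : ℕ) : Measure (ℤ → ℝ) :=
  ∑ n ∈ Icc 1 N, ENNReal.ofReal (1 / n / hm N) • Measure.dirac (pt f n)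

lemma nu_prob (f : ℕ → ℝ) {N : ℕ} (hN : 1 ≤ N) : IsProbabilityMeasure (nu f N) := by
  have hp := hm_pos hN
  refine ⟨?_⟩
  unfold nu
  rw [Measure.finsetSum_apply]
  have e1 : ∀ n ∈ Icc 1 N, (ENNReal.ofReal (1 / n / hm N) • Measure.dirac (pt f n)) Set.univ =
      ENNReal.ofReal (1 / n / hm N) := by
    intro n _
    rw [Measure.smul_apply, measure_univ, smul_eq_mul, mul_one]
  rw [sum_congr rfl e1, ← ENNReal.ofReal_sum_of_nonneg (fun n _ => by positivity), ← sum_div]
  have e2 : (∑ n ∈ Icc 1 N, 1 / (n : ℝ)) / hm N = 1 := div_self hp.ne'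
  rw [e2]
  simp

lemma nu_int {f : ℕ → ℝ} {N : ℕ} (hN : 1 ≤ N) {F : (ℤ → ℝ) → ℝ} (hF : Continuous F) {C : ℝ}
    (hC : ∀ x, |F x| ≤ C) :
    ∫ x, F x ∂(nu f N) = (∑ n ∈ Icc 1 N, F (pt f n) / n) / hm N := by
  have hp := hm_pos hN
  unfold nu
  rw [integral_finsetSum_measure]
  · rw [sum_div]
    refine sum_congr rfl fun n _ => ?_
    rw [integral_smul_measure, integral_dirac' _ _ hF.measurable.stronglyMeasurable,
      ENNReal.toReal_ofReal (by positivity), smul_eq_mul]
    ring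
  · intro n _
    refine Integrable.smul_measure ?_ ENNReal.ofReal_ne_top
    exact Integrable.of_bound hF.measurable.aestronglyMeasurable C
      (Eventually.of_forall fun x => by rw [Real.norm_eq_abs]; exact hC x)

/-- the compact cube -/
def cube : Set (ℤ → ℝ) := Set.pi Set.univ (fun _ => Set.Icc (-1) 1)

lemma cube_compact : IsCompact cube := isCompact_univ_pi (fun _ => isCompact_Icc)

lemma nu_cube {f : ℕ → ℝ} (hf : ∀ n, f n = 1 ∨ f n = -1) (N : ℕ) : nu f N cubeᶜ = 0 := by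
  unfold nu
  rw [Measure.finsetSum_apply]
  refine sum_eq_zero fun n _ => ?_
  rw [Measure.smul_apply, Measure.dirac_apply' _ cube_compact.isClosed.measurableSet.compl,
    Set.indicator_of_notMem, smul_zero]
  rw [Set.mem_compl_iff, not_not]
  intro k _
  exact Set.mem_Icc.2 (abs_le.1 (pt_abs hf n k))

/-- the probability measure -/
noncomputable def nuP (f : ℕ → ℝ) (N : ℕ) : ProbabilityMeasure (ℤ → ℝ) :=
  ⟨nu f (max N 1), nu_prob f (le_max_right _ _)⟩

lemma nuP_coe (f : ℕ → ℝ) {N : ℕ} (hN : 1 ≤ N) :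
    ((nuP f N : ProbabilityMeasure (ℤ → ℝ)) : Measure (ℤ → ℝ)) = nu f N := by
  have : max N 1 = N := max_eq_left hN
  show nu f (max N 1) = nu f N
  rw [this]

lemma nuP_cube {f : ℕ → ℝ} (hf : ∀ n, f n = 1 ∨ f n = -1) (N : ℕ) : nuP f N cubeᶜ = 0 := by
  have h := nu_cube hf (max N 1)
  rw [ProbabilityMeasure.coeFn_def]
  show (nu f (max N 1) cubeᶜ).toNNReal = 0
  rw [h]
  rfl

/-- every limit of a correlation is the correlation of a Furstenberg system -/
theorem exists_furst {f : ℕ → ℝ} (hf : ∀ n, f n = 1 ∨ f n = -1) (H : Finset ℕ) {c : ℝ}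
    {N : ℕ → ℕ} (hN : Tendsto N atTop atTop)
    (hc : Tendsto (fun i => Corr f H (N i)) atTop (nhds c)) :
    ∃ μ : Measure (ℤ → ℝ), IsFurst f μ ∧ ∫ x, FH H x ∂μ = c := by
  set ν : ℕ → ProbabilityMeasure (ℤ → ℝ) := fun i => nuP f (N i) with hν
  have hK : IsCompact {μ : ProbabilityMeasure (ℤ → ℝ) | ∀ n : ℕ, μ ((fun _ => cube) n)ᶜ ≤
      (fun _ : ℕ => (0 : NNReal)) n} :=
    isCompact_setOfPred_probabilityMeasure_mass_eq_compl_isCompact_le tendsto_const_nhds
      (fun _ => cube_compact) (Or.inr monotone_const)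
  have hmem : ∀ i, ν i ∈ {μ : ProbabilityMeasure (ℤ → ℝ) | ∀ n : ℕ, μ ((fun _ => cube) n)ᶜ ≤
      (fun _ : ℕ => (0 : NNReal)) n} := by
    intro i n
    exact (nuP_cube hf (N i)).le
  obtain ⟨μ, -, φ, hφ, hlim⟩ := hK.tendsto_subseq hmem
  have hNφ : Tendsto (fun i => N (φ i)) atTop atTop := hN.comp hφ.tendsto_atTop
  have hfur : IsFurst f (μ : Measure (ℤ → ℝ)) := by
    refine ⟨inferInstance, fun i => N (φ i), hNφ, fun F hF hb => ?_⟩
    obtain ⟨C, hC⟩ := hb
    have h1 := (ProbabilityMeasure.tendsto_iff_forall_integral_tendsto.1 hlim)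
      (BoundedContinuousFunction.ofNormedAddCommGroup F hF C (fun x => by
        rw [Real.norm_eq_abs]; exact hC x))
    have h2 : Tendsto (fun i => hm (N (φ i)) / Real.log (N (φ i))) atTop (nhds 1) := by
      have h3 := harm_tendsto.comp hNφ
      refine h3.congr fun i => ?_
      simp only [Function.comp_apply, hm, Icc_Ioc]
    have h4 := h1.mul h2
    rw [mul_one] at h4
    refine Tendsto.congr' ?_ h4
    filter_upwards [hNφ.eventually_ge_atTop 1] with i hi
    have e1 : ((ν (φ i) : ProbabilityMeasure (ℤ → ℝ)) : Measure (ℤ → ℝ)) = nu f (N (φ i)) :=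
      nuP_coe f hi
    simp only [Function.comp_apply, BoundedContinuousFunction.coe_ofNormedAddCommGroup]
    rw [e1, nu_int hi hF hC]
    have hp := hm_pos hi
    unfold logAvg
    rw [div_mul_div_comm, mul_comm (hm (N (φ i))) (Real.log _), mul_div_mul_right _ _ hp.ne']
    rfl
  refine ⟨μ, hfur, ?_⟩
  have h1 := (ProbabilityMeasure.tendsto_iff_forall_integral_tendsto.1 hlim)
      (BoundedContinuousFunction.ofNormedAddCommGroup (FH H) (FH_cont H) 1 (fun x => by
        rw [Real.norm_eq_abs]; exact FH_abs H x))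
  have h2 : Tendsto (fun i => hm (N (φ i)) / Real.log (N (φ i))) atTop (nhds 1) := by
    have h3 := harm_tendsto.comp hNφ
    refine h3.congr fun i => ?_
    simp only [Function.comp_apply, hm, Icc_Ioc]
  have h4 := h1.mul h2
  rw [mul_one] at h4
  have h5 : Tendsto (fun i => Corr f H (N (φ i))) atTop (nhds c) := hc.comp hφ.tendsto_atTop
  refine tendsto_nhds_unique h4 (Tendsto.congr' ?_ h5)
  filter_upwards [hNφ.eventually_ge_atTop 1] with i hi
  have e1 : ((ν (φ i) : ProbabilityMeasure (ℤ → ℝ)) : Measure (ℤ → ℝ)) = nu f (N (φ i)) :=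
    nuP_coe f hi
  simp only [Function.comp_apply, BoundedContinuousFunction.coe_ofNormedAddCommGroup]
  rw [e1, nu_int hi (FH_cont H) (FH_abs H)]
  have hp := hm_pos hi
  rw [div_mul_div_comm, mul_comm (hm (N (φ i))) (Real.log _), mul_div_mul_right _ _ hp.ne',
    ← logAvg_FH hf]
  rfl

end Pool.Agent.TH668.Gen
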