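import Mathlib
import Pool.Agent.TH668.Gen.E
import Pool.Agent.TH668.Gen.F
import Pool.Agent.TH668.Gen.G

/-! # The zero-one law -/

set_option autoImplicit false

namespace Pool.Agent.TH668.Gen

open Finset Filter MeasureTheory
open Pool.Agent.W257.FS

/-! ### the zero-one law -/

lemma mulOf_pow (ω : ℕ → Bool) {p k : ℕ} (hp : p.Prime) (hk : k ≠ 0) :
    mulOf ω (p ^ k) = if ω (p ^ k) then (1 : ℝ) else -1 := by
  unfold mulOf
  rw [Nat.primeFactors_prime_pow hk hp, prod_singleton, hp.factorization_pow,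
    Finsupp.single_eq_same]

/-- lifting a multiplicative function to signs, close to given signs -/
lemma lift {f : ℕ → ℝ} (hf : SignMul f) (ω' : ℕ → Bool) :
    ∃ ω : ℕ → Bool, (∀ n, 1 ≤ n → mulOf ω n = f n) ∧
      ∀ n1 : ℕ, (∀ n, 1 ≤ n → n < n1 → f n = mulOf ω' n) → ∀ i < n1, ω i = ω' i := by
  classical
  refine ⟨fun i => if IsPrimePow i then decide (f i = 1) else ω' i, fun n hn => ?_,
    fun n1 h i hi => ?_⟩
  · have h1 := Nat.multiplicative_factorization f (fun x y h => hf.mul x y h) hf.one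
      (show n ≠ 0 by omega)
    rw [h1]
    unfold mulOf Finsupp.prod
    rw [Nat.support_factorization]
    refine prod_congr rfl fun p hp => ?_
    have hpp : p.Prime := Nat.prime_of_mem_primeFactors hp
    have hk : n.factorization p ≠ 0 := by
      have := hpp.factorization_pos_of_dvd (show n ≠ 0 by omega) (Nat.dvd_of_mem_primeFactors hp)
      omega
    have hpow : IsPrimePow (p ^ n.factorization p) := hpp.isPrimePow.pow hk
    show (if (if IsPrimePow (p ^ n.factorization p) then decide (f (p ^ n.factorization p) = 1)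
      else ω' (p ^ n.factorization p)) then (1 : ℝ) else -1) = f (p ^ n.factorization p)
    rw [if_pos hpow]
    rcases hf.val (p ^ n.factorization p) (Nat.pow_pos hpp.pos) with h | h
    · rw [h]; simp
    · rw [h]
      have : ¬ ((-1 : ℝ) = 1) := by norm_num
      simp [this]
  · show (if IsPrimePow i then decide (f i = 1) else ω' i) = ω' i
    split_ifs with hpp
    · obtain ⟨p, k, hp, hk, rfl⟩ := hpp
      have hp' : p.Prime := hp.nat_prime
      rw [h _ (Nat.pow_pos hp'.pos) hi, mulOf_pow ω' hp' hk.ne']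
      cases ω' (p ^ k)
      · have : ¬ ((-1 : ℝ) = 1) := by norm_num
        simp [this]
      · simp
    · rfl

lemma corr_congr {f g : ℕ → ℝ} {H : Finset ℕ} {N : ℕ} (h : ∀ n, 1 ≤ n → n ≤ N + H.sup id →
    f n = g n) : Corr f H N = Corr g H N := by
  unfold Corr
  congr 1
  refine sum_congr rfl fun n hn => ?_
  congr 1
  refine prod_congr rfl fun k hk => ?_
  rw [mem_Icc] at hn
  have := le_sup (f := id) hk
  simp only [id] at this
  exact h _ (by omega) (by omega)

lemma corr_local {ω ω' : ℕ → Bool} {H : Finset ℕ} {N : ℕ}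
    (h : ∀ i < N + H.sup id + 1, ω i = ω' i) : Corr (mulOf ω) H N = Corr (mulOf ω') H N :=
  corr_congr fun n _ hn => mulOf_congr h (by omega)

/-- locally uniform smallness, in terms of signs -/
def SmallS (H : Finset ℕ) (ε : ℝ) : Prop :=
  ∀ (ω0 : ℕ → Bool) (n0 : ℕ), ∃ ω1 : ℕ → Bool, (∀ i < n0, ω1 i = ω0 i) ∧
    ∃ n1 N0 : ℕ, ∀ ω : ℕ → Bool, (∀ i < n1, ω i = ω1 i) → ∀ N, N0 ≤ N → |Corr (mulOf ω) H N| ≤ ε

/-- locally uniform smallness, in terms of multiplicative functions -/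
def SmallM (H : Finset ℕ) (ε : ℝ) : Prop :=
  ∀ (f0 : ℕ → ℝ) (n0 : ℕ), SignMul f0 → ∃ f1 : ℕ → ℝ, SignMul f1 ∧
    (∀ n, 1 ≤ n → n < n0 → f1 n = f0 n) ∧
    ∃ n1 N0 : ℕ, ∀ f : ℕ → ℝ, SignMul f → (∀ n, 1 ≤ n → n < n1 → f n = f1 n) →
      ∀ N, N0 ≤ N → |Corr f H N| ≤ ε

lemma smallS_iff (H : Finset ℕ) (ε : ℝ) : SmallS H ε ↔ SmallM H ε := by
  constructor
  · intro h f0 n0 hf0
    obtain ⟨ω0, h0, -⟩ := lift hf0 (fun _ => true)
    obtain ⟨ω1, h1, n1, N0, h2⟩ := h ω0 n0
    refine ⟨mulOf ω1, mulOf_signMul ω1, fun n hn hn0 => ?_, n1, N0, fun f hf hf1 N hN => ?_⟩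
    · rw [mulOf_congr h1 hn0, h0 n hn]
    · obtain ⟨ω, h3, h4⟩ := lift hf ω1
      have h5 := h2 ω (h4 n1 hf1) N hN
      rwa [corr_congr (g := f) (fun n hn _ => h3 n hn)] at h5
  · intro h ω0 n0
    obtain ⟨f1, hf1, h1, n1, N0, h2⟩ := h (mulOf ω0) n0 (mulOf_signMul ω0)
    obtain ⟨ω1, h3, h4⟩ := lift hf1 ω0
    refine ⟨ω1, h4 n0 h1, n1, N0, fun ω hω N hN => h2 (mulOf ω) (mulOf_signMul ω)
      (fun n hn hn1 => ?_) N hN⟩
    rw [mulOf_congr hω hn1, h3 n hn]

theorem generic_of_small (hS : ∀ H : Finset ℕ, H.Nonempty → ∀ ε : ℝ, 0 < ε → SmallS H ε) :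
    ∀ᶠ ω in residual (ℕ → Bool), ∀ H : Finset ℕ, H.Nonempty →
      Tendsto (Corr (mulOf ω) H) atTop (nhds 0) := by
  have h1 : ∀ᶠ ω in residual (ℕ → Bool), ∀ (H : Finset ℕ) (k : ℕ), H.Nonempty →
      ∃ N0, ∀ N, N0 ≤ N → |Corr (mulOf ω) H N| ≤ 1 / ((k : ℝ) + 1) := by
    rw [eventually_countable_forall]
    intro H
    rw [eventually_countable_forall]
    intro k
    by_cases hH : H.Nonempty
    · have h2 := res_of_cyl (P := fun ω => ∃ N0, ∀ N, N0 ≤ N →
          |Corr (mulOf ω) H N| ≤ 1 / ((k : ℝ) + 1)) (fun ω0 n0 => by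
        obtain ⟨ω1, h3, n1, N0, h4⟩ := hS H hH (1 / ((k : ℝ) + 1)) (by positivity) ω0 n0
        exact ⟨ω1, h3, n1, fun ω hω => ⟨N0, h4 ω hω⟩⟩)
      filter_upwards [h2] with ω hω _
      exact hω
    · exact Eventually.of_forall fun ω h => absurd h hH
  filter_upwards [h1] with ω hω H hH
  rw [Metric.tendsto_nhds]
  intro ε hε
  obtain ⟨k, hk⟩ := exists_nat_one_div_lt hε
  obtain ⟨N0, hN0⟩ := hω H k hH
  filter_upwards [eventually_ge_atTop N0] with N hN
  rw [Real.dist_eq, sub_zero]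
  exact (hN0 N hN).trans_lt hk

lemma corr_closed (H : Finset ℕ) (ε : ℝ) (N0 : ℕ) :
    IsClosed {ω : ℕ → Bool | ∀ N, N0 ≤ N → |Corr (mulOf ω) H N| ≤ ε} := by
  rw [← isOpen_compl_iff, isOpen_iff_mem_nhds]
  intro ω hω
  rw [Set.mem_compl_iff, Set.mem_ofPred_eq] at hω
  push Not at hω
  obtain ⟨N, hN, hC⟩ := hω
  refine mem_of_superset (cyl_nhds ω (N + H.sup id + 1)) fun ω' hω' h => ?_
  have h1 := h N hN
  rw [corr_local hω'] at h1
  linarith

theorem small_of_generic (h : ∀ᶠ ω in residual (ℕ → Bool), ∀ H : Finset ℕ, H.Nonempty →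
      Tendsto (Corr (mulOf ω) H) atTop (nhds 0)) {H : Finset ℕ} (hH : H.Nonempty) {ε : ℝ}
    (hε : 0 < ε) : SmallS H ε := by
  intro ω0 n0
  have h1 : ∀ᶠ ω in residual (ℕ → Bool), ∃ N0 : ℕ, ∀ N, N0 ≤ N → |Corr (mulOf ω) H N| ≤ ε := by
    filter_upwards [h] with ω hω
    have h2 := (hω H hH).abs
    rw [abs_zero] at h2
    exact eventually_atTop.1 (h2.eventually_le_const hε)
  obtain ⟨ω1, h3, n1, N0, h4⟩ := cyl_of_res (fun N0 => corr_closed H ε N0) h1 ω0 n0
  exact ⟨ω1, h3, n1, N0, h4⟩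

theorem generic_of_not_small {H : Finset ℕ} (hH : H.Nonempty) {ε : ℝ} (hε : 0 < ε)
    (hS : ¬ SmallS H ε) : ∀ᶠ ω in residual (ℕ → Bool), ∃ H : Finset ℕ, H.Nonempty ∧
      ¬ Tendsto (Corr (mulOf ω) H) atTop (nhds 0) := by
  unfold SmallS at hS
  push Not at hS
  obtain ⟨ω0, n0, hS⟩ := hS
  have h1 : ∀ᶠ ω in residual (ℕ → Bool), ∀ N0 : ℕ, ∃ N, N0 ≤ N ∧
      ε < |Corr (mulOf (sw ω0 n0 ω)) H N| := by
    rw [eventually_countable_forall]
    intro N0
    refine res_of_cyl fun ω2 n2 => ?_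
    obtain ⟨ω, h2, N, hN, h3⟩ := hS (sw ω0 n0 ω2) (fun i hi => if_pos hi) (max n0 n2) N0
    have h4 : ∀ i, i < n0 → ω i = ω0 i := fun i hi => by
      rw [h2 i (lt_max_of_lt_left hi)]
      exact if_pos hi
    have h5 : sw ω0 n0 (sw ω2 n0 ω) = ω := by
      funext i
      unfold sw
      by_cases hi : i < n0
      · rw [if_pos hi, h4 i hi]
      · rw [if_neg hi, if_neg hi]
    refine ⟨sw ω2 n0 ω, fun i hi => ?_, N + H.sup id + 1, fun ω'' hω'' => ⟨N, hN, ?_⟩⟩
    · unfold sw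
      by_cases hi' : i < n0
      · rw [if_pos hi']
      · rw [if_neg hi', h2 i (lt_max_of_lt_right hi)]
        unfold sw
        rw [if_neg hi']
    · have h6 : Corr (mulOf (sw ω0 n0 ω'')) H N = Corr (mulOf ω) H N := by
        rw [← h5]
        refine corr_local fun i hi => ?_
        unfold sw
        by_cases hi' : i < n0
        · rw [if_pos hi', if_pos hi']
        · rw [if_neg hi', if_neg hi']
          have := hω'' i hi
          unfold sw at this
          exact this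
      rw [h6]
      exact h3
  filter_upwards [h1] with ω hω
  by_contra hcon
  push Not at hcon
  have h2 := corr_sw hcon ω0 n0 hH
  have h3 := h2.abs
  rw [abs_zero] at h3
  obtain ⟨N0, hN0⟩ := eventually_atTop.1 (h3.eventually_le_const hε)
  obtain ⟨N, hN, h4⟩ := hω N0
  have := hN0 N hN
  linarith

/-- a function with the Bernoulli system and a correlation that does not tend to zero has
uncountably many Furstenberg systems -/
theorem uncountable {f : ℕ → ℝ} (hf : ∀ n, f n = 1 ∨ f n = -1) (hb : IsFurst f bern)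
    {H : Finset ℕ} (hH : H.Nonempty) (hn : ¬ Tendsto (Corr f H) atTop (nhds 0)) :
    ¬ {μ : Measure (ℤ → ℝ) | IsFurst f μ}.Countable := by
  obtain ⟨-, N, hN, hlim⟩ := hb
  have h1 := hlim (FH H) (FH_cont H) ⟨1, FH_abs H⟩
  rw [int_FH hH] at h1
  have h2 : Tendsto (fun i => Corr f H (N i)) atTop (nhds 0) :=
    h1.congr fun i => logAvg_FH hf H (N i)
  rw [Metric.tendsto_nhds] at hn
  push Not at hn
  obtain ⟨ε, hε, hfr⟩ := hn
  have hfr' : ∃ᶠ n in atTop, ε ≤ Corr f H n ∨ ε ≤ - Corr f H n := by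
    refine hfr.mono fun n h => ?_
    rw [Real.dist_eq, sub_zero, le_abs] at h
    exact h
  have hslow := corr_slow hf H
  intro hc
  have hc' := hc.image (fun μ : Measure (ℤ → ℝ) => ∫ x, FH H x ∂μ)
  rcases frequently_or_distrib.1 hfr' with h3 | h3
  · have h4 : Set.Ioo 0 ε ⊆ (fun μ : Measure (ℤ → ℝ) => ∫ x, FH H x ∂μ) ''
        {μ : Measure (ℤ → ℝ) | IsFurst f μ} := by
      intro c hc
      have h5 : ∃ᶠ n in atTop, Corr f H n < c :=
        hN.frequently (h2.eventually_lt_const hc.1).frequently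
      obtain ⟨N', hN', h6⟩ := ivt hslow h5 (h3.mono fun n h => hc.2.le.trans h)
      obtain ⟨μ, h7, h8⟩ := exists_furst hf H hN' h6
      exact ⟨μ, h7, h8⟩
    have h5 := (hc'.mono h4).measure_zero volume
    rw [Real.volume_Ioo] at h5
    simp at h5
    linarith
  · have h4 : Set.Ioo 0 ε ⊆ (fun t => -t) '' ((fun μ : Measure (ℤ → ℝ) => ∫ x, FH H x ∂μ) ''
        {μ : Measure (ℤ → ℝ) | IsFurst f μ}) := by
      intro c hc
      have h20 := h2.neg
      rw [neg_zero] at h20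
      have h5 : ∃ᶠ n in atTop, - Corr f H n < c :=
        hN.frequently (h20.eventually_lt_const hc.1).frequently
      have hslow' : Tendsto (fun N => - Corr f H (N + 1) - - Corr f H N) atTop (nhds 0) := by
        have := hslow.neg
        rw [neg_zero] at this
        refine this.congr fun n => ?_
        ring
      obtain ⟨N', hN', h6⟩ := ivt hslow' h5 (h3.mono fun n h => hc.2.le.trans h)
      have h6' : Tendsto (fun i => Corr f H (N' i)) atTop (nhds (-c)) := by
        have := h6.neg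
        refine this.congr fun n => ?_
        ring
      obtain ⟨μ, h7, h8⟩ := exists_furst hf H hN' h6'
      exact ⟨-c, ⟨μ, h7, h8⟩, neg_neg c⟩
    have h5 := ((hc'.image _).mono h4).measure_zero volume
    rw [Real.volume_Ioo] at h5
    simp at h5
    linarith

end Pool.Agent.TH668.Gen
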