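import Mathlib
import Pool.Agent.TH668.Gen.E
import Pool.Agent.TH668.Gen.C
import Pool.Agent.W257.FS.H

/-! # Generic families -/

set_option autoImplicit false

namespace Pool.Agent.TH668.Gen

open Finset Filter MeasureTheory
open Pool.Agent.W257.FS

/-! ### families -/

lemma cyl2_nhds (ω : ℕ → ℕ → Bool) (n : ℕ) :
    {ω' : ℕ → ℕ → Bool | ∀ i < n, ∀ k < n, ω' i k = ω i k} ∈ nhds ω := by
  have h1 : IsOpen {ω' : ℕ → ℕ → Bool | ∀ i < n, ∀ k < n, ω' i k = ω i k} := by
    have e : {ω' : ℕ → ℕ → Bool | ∀ i < n, ∀ k < n, ω' i k = ω i k} =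
        Set.pi (↑(range n) : Set ℕ) (fun i => {x : ℕ → Bool | ∀ k < n, x k = ω i k}) := by
      ext ω'
      simp [Set.mem_pi]
    rw [e]
    refine isOpen_set_pi (range n).finite_toSet fun i _ => ?_
    have e' : {x : ℕ → Bool | ∀ k < n, x k = ω i k} =
        Set.pi (↑(range n) : Set ℕ) (fun k => {ω i k}) := by
      ext x
      simp [Set.mem_pi]
    rw [e']
    exact isOpen_set_pi (range n).finite_toSet fun k _ => isOpen_discrete _
  exact h1.mem_nhds fun i _ k _ => rfl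

lemma nhds_cyl2 {ω : ℕ → ℕ → Bool} {U : Set (ℕ → ℕ → Bool)} (hU : U ∈ nhds ω) :
    ∃ n, ∀ ω' : ℕ → ℕ → Bool, (∀ i < n, ∀ k < n, ω' i k = ω i k) → ω' ∈ U := by
  rw [nhds_pi, Filter.mem_pi] at hU
  obtain ⟨I, hI, t, ht, hsub⟩ := hU
  obtain ⟨n, hn⟩ := hI.bddAbove
  choose m hm using fun i => nhds_cyl (ht i)
  refine ⟨n + 1 + ∑ i ∈ range (n + 1), m i, fun ω' h => hsub ?_⟩
  intro i hi
  have hin : i ≤ n := hn hi
  refine hm i (ω' i) fun k hk => h i (by omega) k ?_
  have h1 : m i ≤ ∑ i ∈ range (n + 1), m i :=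
    single_le_sum (f := m) (fun _ _ => Nat.zero_le _) (mem_range.2 (by omega))
  omega

lemma res_of_cyl2 {P : (ℕ → ℕ → Bool) → Prop} (h : ∀ (ω0 : ℕ → ℕ → Bool) (n0 : ℕ),
    ∃ ω1 : ℕ → ℕ → Bool, (∀ i < n0, ∀ k < n0, ω1 i k = ω0 i k) ∧
      ∃ n1 : ℕ, ∀ ω : ℕ → ℕ → Bool, (∀ i < n1, ∀ k < n1, ω i k = ω1 i k) → P ω) :
    ∀ᶠ ω in residual (ℕ → ℕ → Bool), P ω := by
  have h1 : interior {ω | P ω} ∈ residual (ℕ → ℕ → Bool) := by
    refine residual_of_dense_open isOpen_interior ?_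
    rw [dense_iff_inter_open]
    intro U hU hne
    obtain ⟨ω0, hω0⟩ := hne
    obtain ⟨n0, hn0⟩ := nhds_cyl2 (hU.mem_nhds hω0)
    obtain ⟨ω1, h2, n1, h3⟩ := h ω0 n0
    refine ⟨ω1, hn0 ω1 h2, ?_⟩
    rw [mem_interior_iff_mem_nhds]
    exact mem_of_superset (cyl2_nhds ω1 n1) fun ω hω => h3 ω hω
  exact mem_of_superset h1 interior_subset

/-- the product of the functions with index in `S` -/
noncomputable def mulS (ω : ℕ → ℕ → Bool) (S : Finset ℕ) (n : ℕ) : ℝ := ∏ i ∈ S, mulOf (ω i) n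

lemma mulS_or (ω : ℕ → ℕ → Bool) (S : Finset ℕ) (n : ℕ) : mulS ω S n = 1 ∨ mulS ω S n = -1 :=
  prod_or _ _ fun i _ => mulOf_or (ω i) n

lemma far_dense2 {S : Finset ℕ} (hS : S.Nonempty) {q : ℕ} (χ : DirichletCharacter ℂ q) (M : ℕ) :
    ∀ᶠ ω in residual (ℕ → ℕ → Bool), ∃ N, (M : ℝ) < PS (mulS ω S) χ N := by
  obtain ⟨i0, hi0⟩ := hS
  refine res_of_cyl2 fun ω0 n0 => ?_
  obtain ⟨N, hN0, hN⟩ := primes_div n0 M
  set ω1 : ℕ → ℕ → Bool := fun i k => if k < n0 then ω0 i k else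
    if i = i0 then decide ((χ (k : ZMod q)).re < 0) else true with hω1
  refine ⟨ω1, fun i _ k hk => if_pos hk, N + S.sup id + 1, fun ω hω => ⟨N, hN.trans_le ?_⟩⟩
  unfold PS
  have e : (range N).filter (fun p => p.Prime ∧ n0 ≤ p) ⊆ (range N).filter Nat.Prime := by
    intro p hp
    rw [mem_filter] at hp ⊢
    exact ⟨hp.1, hp.2.1⟩
  calc ∑ p ∈ (range N).filter (fun p => p.Prime ∧ n0 ≤ p), 1 / (p : ℝ) ≤
      ∑ p ∈ (range N).filter (fun p => p.Prime ∧ n0 ≤ p),
        (1 - ((mulS ω S p : ℂ) * star (χ ((p : ℕ) : ZMod q))).re) / (p : ℝ) := by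
        refine sum_le_sum fun p hp => ?_
        rw [mem_filter, mem_range] at hp
        obtain ⟨hpN, hp1, hp2⟩ := hp
        refine div_le_div_of_nonneg_right ?_ (Nat.cast_nonneg _)
        have hsup : ∀ i ∈ S, i ≤ S.sup id := fun i hi => le_sup (f := id) hi
        have e0 : mulS ω S p = mulOf (ω i0) p := by
          unfold mulS
          rw [← mul_prod_erase S _ hi0, prod_eq_one, mul_one]
          intro i hi
          rw [mem_erase] at hi
          have := hsup i hi.2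
          have e3 : ω1 i p = true := by
            show (if p < n0 then ω0 i p else
              if i = i0 then decide ((χ (p : ZMod q)).re < 0) else true) = true
            rw [if_neg (by omega), if_neg hi.1]
          rw [mulOf_prime _ hp1, hω i (by omega) p (by omega), e3]
          simp
        have hs0 := hsup i0 hi0
        rw [re_mul, e0, mulOf_prime _ hp1, hω i0 (by omega) p (by omega)]
        have e1 : ω1 i0 p = decide ((χ (p : ZMod q)).re < 0) := by
          show (if p < n0 then ω0 i0 p else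
              if i0 = i0 then decide ((χ (p : ZMod q)).re < 0) else true) = _
          rw [if_neg (by omega), if_pos rfl]
        rw [e1]
        by_cases hneg : (χ (p : ZMod q)).re < 0
        · simp only [hneg, decide_true, if_true]
          linarith
        · simp only [hneg, decide_false]
          push Not at hneg
          simp only [Bool.false_eq_true, if_false]
          linarith
    _ ≤ _ := sum_le_sum_of_subset_of_nonneg e fun p _ _ => term_nonneg (mulS_or ω S p) χ p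

/-- comeager many families have only aperiodic products -/
theorem far_generic2 : ∀ᶠ ω in residual (ℕ → ℕ → Bool), ∀ S : Finset ℕ, S.Nonempty →
    ∀ (q : ℕ) (χ : DirichletCharacter ℂ q), 1 ≤ q →
    ¬ Summable (fun p : Nat.Primes =>
      (1 - ((mulS ω S p : ℂ) * star (χ ((p : ℕ) : ZMod q))).re) / ((p : ℕ) : ℝ)) := by
  have h1 : ∀ S : Finset ℕ, ∀ᶠ ω in residual (ℕ → ℕ → Bool), ∀ q : ℕ, S.Nonempty →
      ∀ (χ : DirichletCharacter ℂ q), 1 ≤ q → ¬ Summable (fun p : Nat.Primes =>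
      (1 - ((mulS ω S p : ℂ) * star (χ ((p : ℕ) : ZMod q))).re) / ((p : ℕ) : ℝ)) := by
    intro S
    rw [eventually_countable_forall]
    intro q
    by_cases hS : S.Nonempty
    swap
    · exact Eventually.of_forall fun ω h => absurd h hS
    rcases Nat.eq_zero_or_pos q with h0 | h0
    · exact Eventually.of_forall fun ω _ χ hq => absurd hq (by omega)
    · have : NeZero q := ⟨h0.ne'⟩
      have h3 : ∀ᶠ ω in residual (ℕ → ℕ → Bool), ∀ (χ : DirichletCharacter ℂ q) (M : ℕ),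
          ∃ N, (M : ℝ) < PS (mulS ω S) χ N := by
        rw [eventually_countable_forall]
        intro χ
        rw [eventually_countable_forall]
        exact fun M => far_dense2 hS χ M
      filter_upwards [h3] with ω hω _ χ _
      exact far_of (mulS_or ω S) χ (hω χ)
  have h2 := (eventually_countable_forall (l := residual (ℕ → ℕ → Bool))).2 h1
  filter_upwards [h2] with ω hω S hS q χ hq
  exact hω S q hS χ hq

lemma top_dense2 (ℓ K X0 : ℕ) : ∀ᶠ ω in residual (ℕ → ℕ → Bool), ∃ X, X0 ≤ X ∧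
    ∀ i < ℓ, ∀ p : ℕ, p.Prime → p ≤ X → X < p ^ K → ω i p = true := by
  refine res_of_cyl2 fun ω0 n0 => ?_
  refine ⟨fun i k => if k < n0 then ω0 i k else true, fun i _ k hk => if_pos hk,
    max X0 (n0 ^ K) + ℓ + 1, fun ω hω => ⟨max X0 (n0 ^ K), le_max_left _ _,
    fun i hi p hp hpX hX => ?_⟩⟩
  rw [hω i (by omega) p (by omega)]
  have h1 : n0 < p := by
    have h2 : n0 ^ K < p ^ K := (le_max_right _ _).trans_lt hX
    exact lt_of_pow_lt_pow_left₀ K (Nat.zero_le _) h2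
  exact if_neg (by omega)

lemma BS_zero {ω : ℕ → ℕ → Bool} {ℓ K X : ℕ}
    (h : ∀ i < ℓ, ∀ p : ℕ, p.Prime → p ≤ X → X < p ^ K → ω i p = true) :
    BS (fun i : Fin ℓ => mulOf (ω i)) (fun _ => (1 : DirichletCharacter ℂ 1)) K X = 0 := by
  classical
  unfold BS
  rw [sum_eq_zero]
  intro p hp
  exfalso
  rw [mem_filter, mem_Icc] at hp
  obtain ⟨⟨h1, h2⟩, h3, h4, h5⟩ := hp
  apply h5
  intro i
  show ((mulOf (ω i) p : ℝ) : ℂ) = (1 : DirichletCharacter ℂ 1) (p : ZMod 1)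
  rw [mulOf_prime _ h3, h i i.2 p h3 h2 h4, MulChar.one_apply]
  · simp
  · rw [ZMod.isUnit_iff_coprime]
    exact Nat.coprime_one_right _

/-- joint correlation -/
noncomputable def JC (ω : ℕ → ℕ → Bool) (A : Finset (ℕ × ℕ)) (N : ℕ) : ℝ :=
  (∑ n ∈ Icc 1 N, (∏ a ∈ A, mulOf (ω a.2) (n + a.1)) / n) / Real.log N

open Classical in
/-- correlations from patterns -/
lemma JC_eq (ω : ℕ → ℕ → Bool) {A : Finset (ℕ × ℕ)} {L ℓ : ℕ}
    (hA : ∀ a ∈ A, a.1 < L ∧ a.2 < ℓ) (N : ℕ) :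
    JC ω A N = ∑ s : Fin L → Fin ℓ → Bool,
      (∏ a ∈ A.attach, sgn (s ⟨a.1.1, (hA a.1 a.2).1⟩ ⟨a.1.2, (hA a.1 a.2).2⟩)) *
      LF (fun i : Fin ℓ => mulOf (ω i)) (fun j : Fin L => (j : ℕ)) (fun j i => sgn (s j i)) N := by
  set b : ℕ → Fin L → Fin ℓ → Bool := fun n j i => decide (mulOf (ω i) (n + (j : ℕ)) = 1) with hb
  have hbs : ∀ n s, (∀ (j : Fin L) (i : Fin ℓ), mulOf (ω i) (n + (j : ℕ)) = sgn (s j i)) ↔
      b n = s := by
    intro n s
    constructor
    · intro h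
      funext j i
      simp only [hb]
      rw [h j i, decide_sgn]
    · rintro rfl j i
      simp only [hb]
      rw [sgn_decide (mulOf_or _ _)]
  unfold JC LF
  have e1 : ∀ s : Fin L → Fin ℓ → Bool,
      (∏ a ∈ A.attach, sgn (s ⟨a.1.1, (hA a.1 a.2).1⟩ ⟨a.1.2, (hA a.1 a.2).2⟩)) *
      ((∑ n ∈ (Ioc 0 N).filter (fun n => ∀ (j : Fin L) (i : Fin ℓ),
        mulOf (ω i) (n + (j : ℕ)) = sgn (s j i)), 1 / (n : ℝ)) / Real.log N) =
      (∑ n ∈ Ioc 0 N, if b n = s then
        (∏ a ∈ A.attach, sgn (s ⟨a.1.1, (hA a.1 a.2).1⟩ ⟨a.1.2, (hA a.1 a.2).2⟩)) / n else 0) /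
        Real.log N := by
    intro s
    rw [mul_div_assoc', mul_sum, sum_filter]
    congr 1
    refine sum_congr rfl fun n _ => ?_
    by_cases h : b n = s
    · rw [if_pos h, if_pos ((hbs n s).2 h)]
      ring
    · rw [if_neg h, if_neg (fun h' => h ((hbs n s).1 h'))]
  rw [sum_congr rfl fun s _ => e1 s, ← sum_div, sum_comm, Icc_Ioc]
  congr 1
  refine sum_congr rfl fun n _ => ?_
  rw [sum_ite_eq, if_pos (mem_univ _)]
  congr 1
  rw [← prod_attach A]
  refine prod_congr rfl fun a _ => ?_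
  exact (hbs n (b n)).2 rfl ⟨a.1.1, (hA a.1 a.2).1⟩ ⟨a.1.2, (hA a.1 a.2).2⟩

lemma flip_sum {A : Finset (ℕ × ℕ)} {L ℓ : ℕ}
    (hA : ∀ a ∈ A, a.1 < L ∧ a.2 < ℓ) (hne : A.Nonempty) :
    ∑ s : Fin L → Fin ℓ → Bool,
      (∏ a ∈ A.attach, sgn (s ⟨a.1.1, (hA a.1 a.2).1⟩ ⟨a.1.2, (hA a.1 a.2).2⟩)) = 0 := by
  classical
  obtain ⟨a0, ha0⟩ := hne
  set j0 : Fin L := ⟨a0.1, (hA a0 ha0).1⟩ with hj0
  set i0 : Fin ℓ := ⟨a0.2, (hA a0 ha0).2⟩ with hi0
  have hflip : ∀ s : Fin L → Fin ℓ → Bool,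
      ∏ a ∈ A.attach, sgn ((Function.update s j0 (Function.update (s j0) i0 (!s j0 i0)))
        ⟨a.1.1, (hA a.1 a.2).1⟩ ⟨a.1.2, (hA a.1 a.2).2⟩) =
      - ∏ a ∈ A.attach, sgn (s ⟨a.1.1, (hA a.1 a.2).1⟩ ⟨a.1.2, (hA a.1 a.2).2⟩) := by
    intro s
    have hmem : (⟨a0, ha0⟩ : {x // x ∈ A}) ∈ A.attach := mem_attach _ _
    rw [← mul_prod_erase A.attach _ hmem, ← mul_prod_erase A.attach
      (fun a => sgn (s ⟨a.1.1, (hA a.1 a.2).1⟩ ⟨a.1.2, (hA a.1 a.2).2⟩)) hmem]
    have e1 : sgn ((Function.update s j0 (Function.update (s j0) i0 (!s j0 i0))) j0 i0) =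
        - sgn (s j0 i0) := by
      rw [Function.update_self, Function.update_self]
      cases s j0 i0 <;> simp [sgn]
    have e2 : ∏ a ∈ A.attach.erase ⟨a0, ha0⟩,
        sgn ((Function.update s j0 (Function.update (s j0) i0 (!s j0 i0)))
        ⟨a.1.1, (hA a.1 a.2).1⟩ ⟨a.1.2, (hA a.1 a.2).2⟩) =
        ∏ a ∈ A.attach.erase ⟨a0, ha0⟩, sgn (s ⟨a.1.1, (hA a.1 a.2).1⟩
          ⟨a.1.2, (hA a.1 a.2).2⟩) := by
      refine prod_congr rfl fun a ha => ?_
      rw [mem_erase] at ha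
      congr 1
      by_cases hj : (⟨a.1.1, (hA a.1 a.2).1⟩ : Fin L) = j0
      · have hi : (⟨a.1.2, (hA a.1 a.2).2⟩ : Fin ℓ) ≠ i0 := by
          intro hi
          apply ha.1
          apply Subtype.ext
          rw [hj0, Fin.mk.injEq] at hj
          rw [hi0, Fin.mk.injEq] at hi
          exact Prod.ext hj hi
        rw [hj, Function.update_self, Function.update_of_ne hi]
      · rw [Function.update_of_ne hj]
    show sgn ((Function.update s j0 (Function.update (s j0) i0 (!s j0 i0))) j0 i0) * _ =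
      -(sgn (s j0 i0) * _)
    rw [e1, e2]
    ring
  refine sum_involution (fun s _ => Function.update s j0 (Function.update (s j0) i0 (!s j0 i0)))
    ?_ ?_ ?_ ?_
  · intro s _
    rw [hflip]
    ring
  · intro s _ _ he
    have h1 := congrFun (congrFun he j0) i0
    rw [Function.update_self, Function.update_self] at h1
    cases hs : s j0 i0 <;> rw [hs] at h1 <;> simp at h1
  · intro s _
    exact mem_univ _
  · intro s _
    funext j i
    by_cases hj : j = j0
    · rw [hj]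
      by_cases hi : i = i0
      · rw [hi]; simp
      · simp
    · simp [Function.update_of_ne hj]

/-- all joint correlations of a generic family vanish along one sequence -/
theorem family_generic : ∀ᶠ ω in residual (ℕ → ℕ → Bool), ∃ N : ℕ → ℕ, Tendsto N atTop atTop ∧
    ∀ A : Finset (ℕ × ℕ), A.Nonempty → Tendsto (fun k => JC ω A (N k)) atTop (nhds 0) := by
  have h1 : ∀ᶠ ω in residual (ℕ → ℕ → Bool), ∀ ℓ K X0 : ℕ, ∃ X, X0 ≤ X ∧
      ∀ i < ℓ, ∀ p : ℕ, p.Prime → p ≤ X → X < p ^ K → ω i p = true := by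
    rw [eventually_countable_forall]
    intro ℓ
    rw [eventually_countable_forall]
    intro K
    rw [eventually_countable_forall]
    exact fun X0 => top_dense2 ℓ K X0
  have hC := Pool.Agent.W479.TLClaim.claim Pool.Agent.W591.TL.law Pool.Agent.W975.TL.tail
  have hN := Pool.Agent.W290.TL.near
  filter_upwards [far_generic2, h1] with ω h2 h3
  -- finite families
  have h4 : ∀ ℓ : ℕ, ∃ N : ℕ → ℕ, Tendsto N atTop atTop ∧ ∀ A : Finset (ℕ × ℕ), A.Nonempty →
      (∀ a ∈ A, a.2 < ℓ) → Tendsto (fun k => JC ω A (N k)) atTop (nhds 0) := by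
    intro ℓ
    have hbs : ∀ K : ℕ, 1 ≤ K → ∃ (q : ℕ) (χ : Fin ℓ → DirichletCharacter ℂ q), 1 ≤ q ∧
        NP (fun i : Fin ℓ => mulOf (ω i)) χ ∧
        ∃ᶠ X : ℕ in atTop, BS (fun i : Fin ℓ => mulOf (ω i)) χ K X ≤ 1 / K := by
      intro K hK
      refine ⟨1, fun _ => 1, le_rfl, ?_, ?_⟩
      · intro S hS
        have h5 := h2 (S.map Fin.valEmbedding) (hS.map) 1 1 le_rfl
        intro h6
        apply h5
        refine h6.congr fun p => ?_
        have e1 : mulS ω (S.map Fin.valEmbedding) p = ∏ i ∈ S, mulOf (ω i) p := by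
          unfold mulS
          rw [prod_map]
          rfl
        have e2 : ((1 : DirichletCharacter ℂ 1) ((p : ℕ) : ZMod 1)) = 1 := by
          rw [MulChar.one_apply]
          rw [ZMod.isUnit_iff_coprime]
          exact Nat.coprime_one_right _
        rw [e1, e2]
        push_cast
        simp only [e2, star_one, mul_one]
      · rw [frequently_atTop]
        intro X0
        obtain ⟨X, hX0, hX⟩ := h3 ℓ K X0
        refine ⟨X, hX0, ?_⟩
        rw [BS_zero hX]
        positivity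
    obtain ⟨N, hN1, hN2⟩ := diag hC hN (fun i : Fin ℓ => mulOf (ω i))
      (fun i => mulOf_signMul (ω i)) hbs
    refine ⟨N, hN1, fun A hA hAℓ => ?_⟩
    have hA' : ∀ a ∈ A, a.1 < A.sup Prod.fst + 1 ∧ a.2 < ℓ := fun a ha =>
      ⟨Nat.lt_succ_of_le (le_sup (f := Prod.fst) ha), hAℓ a ha⟩
    have h5 := tendsto_finsetSum (univ : Finset (Fin (A.sup Prod.fst + 1) → Fin ℓ → Bool))
      (fun s _ => (hN2 _ (fun j i => sgn (s j i)) (fun j i => sgn_or _)).const_mul
        (∏ a ∈ A.attach, sgn (s ⟨a.1.1, (hA' a.1 a.2).1⟩ ⟨a.1.2, (hA' a.1 a.2).2⟩)))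
    rw [← sum_mul, flip_sum hA' hA, zero_mul] at h5
    exact h5.congr fun k => (JC_eq ω hA' (N k)).symm
  choose N hN1 hN2 using h4
  have h5 : ∀ m : ℕ, ∃ X, m ≤ X ∧ ∀ A ∈ (range m ×ˢ range m).powerset, A.Nonempty →
      |JC ω A X| ≤ 1 / ((m : ℝ) + 1) := by
    intro m
    have h6 : ∀ᶠ k in atTop, ∀ A ∈ (range m ×ˢ range m).powerset, A.Nonempty →
        |JC ω A (N m k)| ≤ 1 / ((m : ℝ) + 1) := by
      rw [eventually_all_finset]
      intro A hA
      by_cases hne : A.Nonempty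
      · have h7 := (hN2 m A hne (fun a ha => by
          have := mem_powerset.1 hA ha
          rw [mem_product, mem_range, mem_range] at this
          exact this.2)).abs
        rw [abs_zero] at h7
        filter_upwards [h7.eventually_le_const (show (0 : ℝ) < 1 / ((m : ℝ) + 1) by positivity)]
          with k hk _
        exact hk
      · exact Eventually.of_forall fun k h => absurd h hne
    obtain ⟨k, h7, h8⟩ := (h6.and ((hN1 m).eventually_ge_atTop m)).exists
    exact ⟨N m k, h8, h7⟩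
  choose X hX1 hX2 using h5
  refine ⟨X, tendsto_atTop_mono hX1 tendsto_id, fun A hA => ?_⟩
  rw [Metric.tendsto_nhds]
  intro ε hε
  have h6 : Tendsto (fun m : ℕ => 1 / ((m : ℝ) + 1)) atTop (nhds 0) :=
    tendsto_one_div_add_atTop_nhds_zero_nat
  filter_upwards [h6.eventually_lt_const hε,
    eventually_ge_atTop (A.sup Prod.fst + A.sup Prod.snd + 1)] with m h7 h8
  rw [Real.dist_eq, sub_zero]
  refine lt_of_le_of_lt (hX2 m A (mem_powerset.2 fun a ha => ?_) hA) h7
  have h9 := le_sup (f := Prod.fst) ha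
  have h10 := le_sup (f := Prod.snd) ha
  rw [mem_product, mem_range, mem_range]
  omega

end Pool.Agent.TH668.Gen
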