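import Mathlib
import Pool.Agent.TH668.Gen.L

/-! # Natural averages -/

set_option autoImplicit false

namespace Pool.Agent.TH668.Gen

open Finset Filter
open Pool.Agent.W257.FS

/-! ### natural averages -/

/-- natural averages of joint correlations -/
noncomputable def NA (F : ℕ → ℕ → ℝ) (A : Finset (ℕ × ℕ)) (N : ℕ) : ℝ :=
  (∑ n ∈ Icc 1 N, ∏ a ∈ A, F a.2 (n + a.1)) / N

lemma shiftN_one (u : ℕ → ℝ) (hu : ∀ n, |u n| ≤ 1) (N : ℕ) :
    |∑ n ∈ Ioc 0 N, u (n + 1) - ∑ n ∈ Ioc 0 N, u n| ≤ 2 := by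
  have key : ∀ N : ℕ, ∑ n ∈ Ioc 0 N, u (n + 1) - ∑ n ∈ Ioc 0 N, u n = u (N + 1) - u 1 := by
    intro N
    induction N with
    | zero => simp
    | succ N ih =>
      rw [sum_Ioc_succ_top (by omega), sum_Ioc_succ_top (by omega)]
      linarith
  rw [key]
  have h1 := hu (N + 1)
  have h2 := hu 1
  have h3 := abs_sub (u (N + 1)) (u 1)
  linarith

lemma shiftN (u : ℕ → ℝ) (hu : ∀ n, |u n| ≤ 1) (N m : ℕ) :
    |∑ n ∈ Ioc 0 N, u (n + m) - ∑ n ∈ Ioc 0 N, u n| ≤ 2 * m := by
  induction m with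
  | zero => simp
  | succ m ih =>
    have h1 := shiftN_one (fun n => u (n + m)) (fun n => hu _) N
    have e : ∀ n : ℕ, u (n + 1 + m) = u (n + (m + 1)) := fun n => by
      rw [show n + 1 + m = n + (m + 1) by ring]
    simp only [e] at h1
    have h2 := abs_add_le (∑ n ∈ Ioc 0 N, u (n + (m + 1)) - ∑ n ∈ Ioc 0 N, u (n + m))
      (∑ n ∈ Ioc 0 N, u (n + m) - ∑ n ∈ Ioc 0 N, u n)
    have e2 : ∑ n ∈ Ioc 0 N, u (n + (m + 1)) - ∑ n ∈ Ioc 0 N, u n =
      (∑ n ∈ Ioc 0 N, u (n + (m + 1)) - ∑ n ∈ Ioc 0 N, u (n + m)) +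
      (∑ n ∈ Ioc 0 N, u (n + m) - ∑ n ∈ Ioc 0 N, u n) := by ring
    rw [e2]
    push_cast
    linarith

/-- periodic weights do not matter once the correlations of `F` with its shifts vanish -/
lemma vdcN {F : ℕ → ℝ} (hFor : ∀ n, F n = 1 ∨ F n = -1) {w : ℕ → ℝ} {Q : ℕ}
    (hcF : ∀ j j' : ℕ, j ≠ j' → Tendsto (fun N : ℕ =>
      (∑ n ∈ Ioc 0 N, F (n + Q * j) * F (n + Q * j')) / (N : ℝ)) atTop (nhds 0))
    (hw : ∀ n, 1 ≤ n → w (n + Q) = w n) (hw1 : ∀ n, |w n| ≤ 1) :
    Tendsto (fun N : ℕ => (∑ n ∈ Icc 1 N, w n * F n) / (N : ℝ)) atTop (nhds 0) := by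
  have hF1 : ∀ n, |F n| = 1 := fun n => by rcases hFor n with h | h <;> rw [h] <;> simp
  set u : ℕ → ℝ := fun n => w n * F n with hu
  have hu1 : ∀ n, |u n| ≤ 1 := by
    intro n
    simp only [hu]
    rw [abs_mul, hF1, mul_one]
    exact hw1 n
  have hwj : ∀ n, 1 ≤ n → ∀ j, w (n + Q * j) = w n := by
    intro n hn j
    induction j with
    | zero => simp
    | succ j ih =>
      rw [show n + Q * (j + 1) = (n + Q * j) + Q by ring, hw _ (by omega), ih]
  have key : ∀ R : ℕ, 1 ≤ R → ∀ᶠ N : ℕ in atTop,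
      |(∑ n ∈ Icc 1 N, u n) / (N : ℝ)| ≤ 4 / R := by
    intro R hR
    have hRr : (1 : ℝ) ≤ R := by exact_mod_cast hR
    set M := R ^ 2 with hM
    have hM1 : 1 ≤ M := Nat.one_le_pow _ _ hR
    have hMr : (1 : ℝ) ≤ M := by exact_mod_cast hM1
    have hMR : (M : ℝ) = R ^ 2 := by rw [hM]; push_cast; ring
    have hcor : ∀ᶠ N : ℕ in atTop, ∀ p ∈ (range M ×ˢ range M).filter (fun p => p.1 ≠ p.2),
        |(∑ n ∈ Ioc 0 N, F (n + Q * p.1) * F (n + Q * p.2)) / (N : ℝ)| ≤ 1 / M := by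
      rw [eventually_all_finset]
      intro p hp
      rw [mem_filter] at hp
      have h2 := (hcF p.1 p.2 hp.2).abs
      rw [abs_zero] at h2
      exact h2.eventually_le_const (by positivity)
    filter_upwards [hcor, eventually_ge_atTop (2 * Q * M ^ 2 + 1)] with N h1 h2
    have hN1 : 1 ≤ N := by omega
    obtain ⟨l, hl⟩ : ∃ l : ℝ, l = (N : ℝ) := ⟨_, rfl⟩
    have hl0 : 0 < l := by rw [hl]; exact_mod_cast hN1
    have hl2 : (2 * Q * M ^ 2 : ℝ) ≤ l := by
      rw [hl]; exact_mod_cast (by omega : 2 * Q * M ^ 2 ≤ N)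
    have hcard : ∑ n ∈ Ioc 0 N, (1 : ℝ) = l := by
      rw [sum_const, Nat.card_Ioc, nsmul_eq_mul, mul_one, hl, Nat.sub_zero]
    rw [← hl] at h1 ⊢
    rw [Icc_Ioc]
    set S := ∑ n ∈ Ioc 0 N, u n with hS
    set Y : ℕ → ℝ := fun n => ∑ j ∈ range M, F (n + Q * j) with hY
    -- averaging over shifts
    have h3 : |∑ n ∈ Ioc 0 N, w n * Y n - M * S| ≤ 2 * Q * M ^ 2 := by
      have e1 : ∑ n ∈ Ioc 0 N, w n * Y n =
          ∑ j ∈ range M, ∑ n ∈ Ioc 0 N, u (n + Q * j) := by
        rw [sum_comm]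
        refine sum_congr rfl fun n hn => ?_
        simp only [hY, hu]
        rw [mul_sum]
        refine sum_congr rfl fun j _ => ?_
        rw [hwj n (mem_Ioc.1 hn).1]
      have e2 : (M : ℝ) * S = ∑ j ∈ range M, S := by rw [sum_const, card_range, nsmul_eq_mul]
      rw [e1, e2, ← sum_sub_distrib]
      calc _ ≤ ∑ j ∈ range M, |∑ n ∈ Ioc 0 N, u (n + Q * j) - S| := abs_sum_le_sum_abs _ _
        _ ≤ ∑ j ∈ range M, (2 * Q * M : ℝ) := by
          refine sum_le_sum fun j hj => ?_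
          have h4 := shiftN u hu1 N (Q * j)
          refine h4.trans ?_
          have h5 : (j : ℝ) ≤ M := by exact_mod_cast (mem_range.1 hj).le
          push_cast
          have h6 : (0 : ℝ) ≤ Q := Nat.cast_nonneg _
          nlinarith
        _ = _ := by rw [sum_const, card_range, nsmul_eq_mul]; ring
    -- second moment
    have h4 : ∑ n ∈ Ioc 0 N, Y n ^ 2 ≤ 2 * M * l := by
      have e1 : ∑ n ∈ Ioc 0 N, Y n ^ 2 = ∑ p ∈ range M ×ˢ range M,
          ∑ n ∈ Ioc 0 N, F (n + Q * p.1) * F (n + Q * p.2) := by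
        rw [sum_comm]
        refine sum_congr rfl fun n hn => ?_
        rw [sum_product]
        simp only [hY]
        rw [sq, sum_mul_sum]
      rw [e1, ← sum_filter_add_sum_filter_not (range M ×ˢ range M) (fun p => p.1 ≠ p.2)]
      have e2 : ∑ p ∈ (range M ×ˢ range M).filter (fun p => p.1 ≠ p.2),
          ∑ n ∈ Ioc 0 N, F (n + Q * p.1) * F (n + Q * p.2) ≤ M * l := by
        calc _ ≤ ∑ p ∈ (range M ×ˢ range M).filter (fun p => p.1 ≠ p.2), (1 / M * l : ℝ) := by
              refine sum_le_sum fun p hp => ?_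
              have h5 := (abs_le.1 (h1 p hp)).2
              rw [div_le_iff₀ hl0] at h5
              exact h5
          _ ≤ ∑ p ∈ (range M ×ˢ range M), (1 / M * l : ℝ) :=
              sum_le_sum_of_subset_of_nonneg (filter_subset _ _) fun _ _ _ => by positivity
          _ = M * l := by
              rw [sum_const, card_product, card_range, nsmul_eq_mul]
              push_cast
              field_simp
      have e3 : ∑ p ∈ (range M ×ˢ range M).filter (fun p => ¬ p.1 ≠ p.2),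
          ∑ n ∈ Ioc 0 N, F (n + Q * p.1) * F (n + Q * p.2) ≤ M * l := by
        have e4 : ∀ p ∈ (range M ×ˢ range M).filter (fun p => ¬ p.1 ≠ p.2),
            ∑ n ∈ Ioc 0 N, F (n + Q * p.1) * F (n + Q * p.2) = l := by
          intro p hp
          have h5 : p.1 = p.2 := by simpa using (mem_filter.1 hp).2
          rw [h5, ← hcard]
          refine sum_congr rfl fun n _ => ?_
          rcases hFor (n + Q * p.2) with h | h <;> rw [h] <;> norm_num
        rw [sum_congr rfl e4, sum_const, nsmul_eq_mul]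
        have e5 : ((range M ×ˢ range M).filter (fun p => ¬ p.1 ≠ p.2)).card ≤ M := by
          calc _ ≤ ((range M).image (fun i => (i, i))).card := by
                refine card_le_card fun p hp => ?_
                rw [mem_filter, mem_product] at hp
                have h5 : p.1 = p.2 := by simpa using hp.2
                exact mem_image.2 ⟨p.1, hp.1.1, Prod.ext rfl h5⟩
            _ ≤ M := card_image_le.trans (card_range M).le
        have e6 : (((range M ×ˢ range M).filter (fun p => ¬ p.1 ≠ p.2)).card : ℝ) ≤ M := by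
          exact_mod_cast e5
        exact mul_le_mul_of_nonneg_right e6 hl0.le
      linarith
    -- first moment
    have h5 : |∑ n ∈ Ioc 0 N, w n * Y n| ≤ R / 2 * l + 1 / (2 * R) * (2 * M * l) := by
      calc _ ≤ ∑ n ∈ Ioc 0 N, |w n * Y n| := abs_sum_le_sum_abs _ _
        _ ≤ ∑ n ∈ Ioc 0 N, (R / 2 * 1 + 1 / (2 * R) * Y n ^ 2) := by
          refine sum_le_sum fun n _ => ?_
          rw [abs_mul]
          have h6 : |Y n| ≤ R / 2 + 1 / (2 * R) * Y n ^ 2 := by
            have h8 : |Y n| ^ 2 = Y n ^ 2 := sq_abs _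
            have h9 : R / 2 + 1 / (2 * R) * Y n ^ 2 - |Y n| = (R - |Y n|) ^ 2 / (2 * R) := by
              rw [← h8]
              field_simp
              ring
            have h10 : 0 ≤ (R - |Y n|) ^ 2 / (2 * (R : ℝ)) := by positivity
            linarith
          calc _ ≤ 1 * |Y n| := mul_le_mul_of_nonneg_right (hw1 n) (abs_nonneg _)
            _ = |Y n| := one_mul _
            _ ≤ _ := by rw [mul_one]; exact h6
        _ = R / 2 * ∑ n ∈ Ioc 0 N, (1 : ℝ) + 1 / (2 * R) * ∑ n ∈ Ioc 0 N, Y n ^ 2 := by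
          rw [sum_add_distrib, mul_sum, mul_sum]
        _ ≤ _ := by
          rw [hcard]
          gcongr
    have h6 : |M * S| ≤ 4 * M / R * l := by
      have h7 : |M * S| ≤ |∑ n ∈ Ioc 0 N, w n * Y n| +
          |∑ n ∈ Ioc 0 N, w n * Y n - M * S| := by
        have e : (M : ℝ) * S = ∑ n ∈ Ioc 0 N, w n * Y n -
          (∑ n ∈ Ioc 0 N, w n * Y n - M * S) := by ring
        rw [e]
        refine (abs_sub _ _).trans (le_of_eq ?_)
        congr 2
        ring
      have h9 : R / 2 * l + 1 / (2 * R) * (2 * M * l) = 3 / 2 * R * l := by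
        rw [hMR]
        field_simp
        ring
      have h10 : 4 * (M : ℝ) / R * l = 4 * R * l := by
        rw [hMR]
        field_simp
      rw [h10]
      rw [h9] at h5
      nlinarith
    rw [abs_mul, abs_of_pos (show (0 : ℝ) < M by linarith)] at h6
    rw [abs_div, abs_of_pos hl0, div_le_iff₀ hl0]
    have hM0 : (0 : ℝ) < M := by linarith
    have h11 : (M : ℝ) * |S| ≤ M * (4 / R * l) := by
      calc _ ≤ 4 * M / R * l := h6
        _ = _ := by ring
    exact le_of_mul_le_mul_left h11 hM0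
  rw [Metric.tendsto_nhds]
  intro ε hε
  obtain ⟨R, hR⟩ := exists_nat_gt (4 / ε)
  have hR0 : (0 : ℝ) < R := (by positivity : (0 : ℝ) < 4 / ε).trans hR
  have hR1 : 1 ≤ R := by exact_mod_cast hR0
  filter_upwards [key R hR1] with N hN
  rw [Real.dist_eq, sub_zero]
  refine lt_of_le_of_lt hN ?_
  rw [div_lt_iff₀ hε] at hR
  rw [div_lt_iff₀ hR0]
  linarith

/-- periodic weights do not matter once all joint correlations vanish -/
lemma apN {F : ℕ → ℕ → ℝ} (hF : ∀ i n, F i n = 1 ∨ F i n = -1)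
    (hc : ∀ A : Finset (ℕ × ℕ), A.Nonempty → Tendsto (NA F A) atTop (nhds 0))
    {A : Finset (ℕ × ℕ)} (hA : A.Nonempty) {w : ℕ → ℝ} {Q : ℕ} (hQ : 1 ≤ Q)
    (hw : ∀ n, 1 ≤ n → w (n + Q) = w n) (hw1 : ∀ n, |w n| ≤ 1) :
    Tendsto (fun N : ℕ => (∑ n ∈ Icc 1 N, w n * (∏ a ∈ A, F a.2 (n + a.1))) / (N : ℝ))
      atTop (nhds 0) := by
  refine vdcN (F := fun n => ∏ a ∈ A, F a.2 (n + a.1)) (fun n => prod2_or hF A n) (Q := Q)
    (fun j j' hjj' => ?_) hw hw1
  have h1 : (symmDiff (tr2 A (Q * j)) (tr2 A (Q * j'))).Nonempty := by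
    rw [nonempty_iff_ne_empty]
    intro h
    have h' : symmDiff (tr2 A (Q * j)) (tr2 A (Q * j')) = ⊥ := h
    rw [symmDiff_eq_bot] at h'
    refine tr2_ne hA (fun h2 => hjj' ?_) h'
    exact Nat.eq_of_mul_eq_mul_left hQ h2
  refine (hc _ h1).congr fun N => ?_
  unfold NA
  rw [Icc_Ioc]
  congr 1
  refine sum_congr rfl fun n _ => ?_
  rw [prod_tr2, prod_tr2, prod_mul_symmDiff2 (a := fun a : ℕ × ℕ => F a.2 (n + a.1))
    (fun a => hF _ _)]

/-! ### the averages along a generic sequence -/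

lemma NA_prod (F : ℕ → ℕ → ℝ) {A : Finset (ℕ × ℕ)} {L ℓ : ℕ}
    (hA : ∀ a ∈ A, a.1 < L ∧ a.2 < ℓ) (n : ℕ) :
    ∏ a ∈ A, F a.2 (n + a.1) = ∏ j : Fin L, ∏ i ∈ (univ : Finset (Fin ℓ)).filter
      (fun i : Fin ℓ => ((j : ℕ), (i : ℕ)) ∈ A), F i (n + (j : ℕ)) := by
  have e1 : ∀ j : Fin L, ∏ i ∈ (univ : Finset (Fin ℓ)).filter (fun i : Fin ℓ => ((j : ℕ), (i : ℕ)) ∈ A),
      F i (n + (j : ℕ)) = ∏ i : Fin ℓ, if ((j : ℕ), (i : ℕ)) ∈ A then F i (n + (j : ℕ)) else 1 :=
    fun j => prod_filter _ _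
  rw [prod_congr rfl fun j _ => e1 j, ← Fintype.prod_prod_type', ← prod_filter]
  symm
  refine prod_bij (fun (x : Fin L × Fin ℓ) _ => ((x.1 : ℕ), (x.2 : ℕ))) ?_ ?_ ?_ ?_
  · intro x hx
    exact (mem_filter.1 hx).2
  · intro x _ y _ h
    rw [Prod.mk.injEq] at h
    exact Prod.ext (Fin.ext h.1) (Fin.ext h.2)
  · intro a ha
    obtain ⟨h1, h2⟩ := hA a ha
    exact ⟨(⟨a.1, h1⟩, ⟨a.2, h2⟩), mem_filter.2 ⟨mem_univ _, ha⟩, rfl⟩
  · intro x _
    rfl

/-- all natural averages of a generic family vanish along one sequence -/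
theorem family_genericN : ∀ᶠ ω in residual (ℕ → ℕ → Bool), ∃ N : ℕ → ℕ, Tendsto N atTop atTop ∧
    ∀ A : Finset (ℕ × ℕ), A.Nonempty → Tendsto (fun k => NA (mf ω) A (N k)) atTop (nhds 0) := by
  have h1 : ∀ᶠ ω in residual (ℕ → ℕ → Bool), ∀ ℓ K X0 : ℕ, ∃ X, X0 ≤ X ∧
      ∀ i < ℓ, ∀ p : ℕ, p.Prime → p ≤ X → X < p ^ K → ω i p = true := by
    rw [eventually_countable_forall]
    intro ℓ
    rw [eventually_countable_forall]
    intro K
    rw [eventually_countable_forall]
    exact fun X0 => top_dense2 ℓ K X0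
  have hC := Pool.Agent.W479.TLClaim.claim Pool.Agent.W591.TL.law Pool.Agent.W975.TL.tail
  have hN := Pool.Agent.W290.TL.near
  filter_upwards [far_generic2, h1] with ω h2 h3
  have h5 : ∀ m : ℕ, ∃ X, m ≤ X ∧ ∀ A ∈ (range m ×ˢ range m).powerset, A.Nonempty →
      |NA (mf ω) A X| ≤ 1 / ((m : ℝ) + 1) := by
    intro m
    obtain ⟨K, hK, hcore⟩ := core hC hN m (1 / ((m : ℝ) + 1)) (by positivity)
    have h6 : ∀ᶠ X in atTop, ∀ A ∈ (range m ×ˢ range m).powerset, A.Nonempty →
        BS (fun i : Fin m => mulOf (ω i)) (fun _ => (1 : DirichletCharacter ℂ 1)) K X ≤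
          1 / (2 * K) → |NA (mf ω) A X| ≤ 1 / ((m : ℝ) + 1) := by
      rw [eventually_all_finset]
      intro A hA
      by_cases hne : A.Nonempty
      swap
      · exact Eventually.of_forall fun k h => absurd h hne
      have hA' : ∀ a ∈ A, a.1 < m ∧ a.2 < m := fun a ha => by
        have := mem_powerset.1 hA ha
        rw [mem_product, mem_range, mem_range] at this
        exact this
      obtain ⟨a, ha⟩ := hne
      have hj0 := hcore m 1 (fun _ => 1) (fun i : Fin m => mulOf (ω i)) (fun j : Fin m => (j : ℕ))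
        le_rfl (fun i => mulOf_signMul (ω i)) (fun a b hab => Fin.ext hab)
        (fun j => (univ : Finset (Fin m)).filter (fun i : Fin m => ((j : ℕ), (i : ℕ)) ∈ A))
        ⟨a.1, (hA' a ha).1⟩ (by
          intro h6
          have hS : ((univ : Finset (Fin m)).filter (fun i : Fin m => (a.1, (i : ℕ)) ∈ A)).Nonempty :=
            ⟨⟨a.2, (hA' a ha).2⟩, mem_filter.2 ⟨mem_univ _, ha⟩⟩
          have h5 := h2 (((univ : Finset (Fin m)).filter
            (fun i : Fin m => (a.1, (i : ℕ)) ∈ A)).map Fin.valEmbedding) hS.map 1 1 le_rfl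
          apply h5
          refine h6.congr fun p => ?_
          have e1 : mulS ω (((univ : Finset (Fin m)).filter
              (fun i : Fin m => (a.1, (i : ℕ)) ∈ A)).map Fin.valEmbedding) p =
              ∏ i ∈ (univ : Finset (Fin m)).filter (fun i : Fin m => (a.1, (i : ℕ)) ∈ A),
                mulOf (ω i) p := by
            unfold mulS
            rw [prod_map]
            rfl
          have e2 : ((1 : DirichletCharacter ℂ 1) ((p : ℕ) : ZMod 1)) = 1 := by
            rw [MulChar.one_apply]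
            rw [ZMod.isUnit_iff_coprime]
            exact Nat.coprime_one_right _
          rw [e1, e2]
          push_cast
          simp only [e2, star_one, mul_one])
      filter_upwards [hj0, eventually_ge_atTop 1] with X hX hX1 _ hsum
      have h7 := hX hsum
      have hX0 : (0 : ℝ) < X := by exact_mod_cast hX1
      unfold NA
      rw [abs_div, abs_of_pos hX0, div_le_iff₀ hX0, Icc_Ioc]
      have e3 : ∀ n, ∏ a ∈ A, mf ω a.2 (n + a.1) = ∏ j : Fin m,
          ∏ i ∈ (univ : Finset (Fin m)).filter (fun i : Fin m => ((j : ℕ), (i : ℕ)) ∈ A),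
            mulOf (ω i) (n + (j : ℕ)) := fun n => NA_prod (mf ω) hA' n
      rw [sum_congr rfl fun n _ => e3 n]
      exact h7
    have h7 : ∃ᶠ X : ℕ in atTop, BS (fun i : Fin m => mulOf (ω i))
        (fun _ => (1 : DirichletCharacter ℂ 1)) K X ≤ 1 / (2 * K) := by
      rw [frequently_atTop]
      intro X0
      obtain ⟨X, hX0, hX⟩ := h3 m K X0
      refine ⟨X, hX0, ?_⟩
      rw [BS_zero hX]
      positivity
    obtain ⟨X, h8, h9, h10⟩ := (h7.and_eventually (h6.and (eventually_ge_atTop m))).exists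
    exact ⟨X, h10, fun A hA hne => h9 A hA hne h8⟩
  choose X hX1 hX2 using h5
  refine ⟨X, tendsto_atTop_mono hX1 tendsto_id, fun A hA => ?_⟩
  rw [Metric.tendsto_nhds]
  intro ε hε
  have h6 : Tendsto (fun m : ℕ => 1 / ((m : ℝ) + 1)) atTop (nhds 0) :=
    tendsto_one_div_add_atTop_nhds_zero_nat
  filter_upwards [h6.eventually_lt_const hε,
    eventually_ge_atTop (A.sup Prod.fst + A.sup Prod.snd + 1)] with m h7 h8
  rw [Real.dist_eq, sub_zero]
  refine lt_of_le_of_lt (hX2 m A (mem_powerset.2 fun a ha => ?_) hA) h7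
  have h9 := le_sup (f := Prod.fst) ha
  have h10 := le_sup (f := Prod.snd) ha
  rw [mem_product, mem_range, mem_range]
  omega

end Pool.Agent.TH668.Gen
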