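import Mathlib
import Pool.Agent.TH668.Gen.N

/-! # The zero-one law, natural averages -/

set_option autoImplicit false

namespace Pool.Agent.TH668.Gen

open Finset Filter
open Pool.Agent.W257.FS

/-! ### the zero-one law, natural averages -/

lemma na_congr {f g : ℕ → ℕ → ℝ} {A : Finset (ℕ × ℕ)} {N : ℕ}
    (h : ∀ i ≤ A.sup Prod.snd, ∀ n, 1 ≤ n → n ≤ N + A.sup Prod.fst → f i n = g i n) :
    NA f A N = NA g A N := by
  unfold NA
  congr 1
  refine sum_congr rfl fun n hn => ?_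
  refine prod_congr rfl fun a ha => ?_
  rw [mem_Icc] at hn
  have h1 := le_sup (f := Prod.fst) ha
  have h2 := le_sup (f := Prod.snd) ha
  exact h _ h2 _ (by omega) (by omega)

lemma na_local {ω ω' : ℕ → ℕ → Bool} {A : Finset (ℕ × ℕ)} {N n0 : ℕ}
    (h : ∀ i < n0, ∀ k < n0, ω i k = ω' i k) (h1 : A.sup Prod.snd < n0)
    (h2 : N + A.sup Prod.fst < n0) : NA (mf ω) A N = NA (mf ω') A N :=
  na_congr fun i hi n _ hn => mulOf_congr (n0 := n0) (h i (by omega)) (by omega)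

/-- locally uniform smallness, in terms of signs -/
def Small3 (A : Finset (ℕ × ℕ)) (ε : ℝ) : Prop :=
  ∀ (ω0 : ℕ → ℕ → Bool) (n0 : ℕ), ∃ ω1 : ℕ → ℕ → Bool, (∀ i < n0, ∀ k < n0, ω1 i k = ω0 i k) ∧
    ∃ n1 N0 : ℕ, ∀ ω : ℕ → ℕ → Bool, (∀ i < n1, ∀ k < n1, ω i k = ω1 i k) →
      ∀ N, N0 ≤ N → |NA (mf ω) A N| ≤ ε

/-- locally uniform smallness, in terms of multiplicative functions -/
def Small3M (A : Finset (ℕ × ℕ)) (ε : ℝ) : Prop :=
  ∀ (f0 : ℕ → ℕ → ℝ) (n0 : ℕ), (∀ i, SignMul (f0 i)) → ∃ f1 : ℕ → ℕ → ℝ, (∀ i, SignMul (f1 i)) ∧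
    (∀ i < n0, ∀ n, 1 ≤ n → n < n0 → f1 i n = f0 i n) ∧
    ∃ n1 N0 : ℕ, ∀ f : ℕ → ℕ → ℝ, (∀ i, SignMul (f i)) →
      (∀ i < n1, ∀ n, 1 ≤ n → n < n1 → f i n = f1 i n) → ∀ N, N0 ≤ N → |NA f A N| ≤ ε

lemma small3_iff (A : Finset (ℕ × ℕ)) (ε : ℝ) : Small3 A ε ↔ Small3M A ε := by
  constructor
  · intro h f0 n0 hf0
    choose ω0 h0 _h0' using fun i => lift (hf0 i) (fun _ => true)
    obtain ⟨ω1, h1, n1, N0, h2⟩ := h ω0 n0
    refine ⟨mf ω1, fun i => mulOf_signMul (ω1 i), fun i hi n hn hn0 => ?_, n1, N0,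
      fun f hf hf1 N hN => ?_⟩
    · unfold mf
      rw [mulOf_congr (h1 i hi) hn0, h0 i n hn]
    · choose ω h3 h4 using fun i => lift (hf i) (ω1 i)
      have h5 := h2 ω (fun i hi => h4 i n1 (hf1 i hi)) N hN
      have e : NA (mf ω) A N = NA f A N := na_congr (fun i _ n hn _ => h3 i n hn)
      rwa [e] at h5
  · intro h ω0 n0
    obtain ⟨f1, hf1, h1, n1, N0, h2⟩ := h (mf ω0) n0 (fun i => mulOf_signMul (ω0 i))
    choose ω1 h3 h4 using fun i => lift (hf1 i) (ω0 i)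
    refine ⟨ω1, fun i hi => h4 i n0 (h1 i hi), n1, N0, fun ω hω N hN =>
      h2 (mf ω) (fun i => mulOf_signMul (ω i)) (fun i hi n hn hn1 => ?_) N hN⟩
    unfold mf
    rw [mulOf_congr (hω i hi) hn1, h3 i n hn]

theorem generic_of_small3 (hS : ∀ A : Finset (ℕ × ℕ), A.Nonempty → ∀ ε : ℝ, 0 < ε → Small3 A ε) :
    ∀ᶠ ω in residual (ℕ → ℕ → Bool), ∀ A : Finset (ℕ × ℕ), A.Nonempty →
      Tendsto (NA (mf ω) A) atTop (nhds 0) := by
  have h1 : ∀ᶠ ω in residual (ℕ → ℕ → Bool), ∀ (A : Finset (ℕ × ℕ)) (k : ℕ), A.Nonempty →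
      ∃ N0, ∀ N, N0 ≤ N → |NA (mf ω) A N| ≤ 1 / ((k : ℝ) + 1) := by
    rw [eventually_countable_forall]
    intro A
    rw [eventually_countable_forall]
    intro k
    by_cases hA : A.Nonempty
    · have h2 := res_of_cyl2 (P := fun ω => ∃ N0, ∀ N, N0 ≤ N →
          |NA (mf ω) A N| ≤ 1 / ((k : ℝ) + 1)) (fun ω0 n0 => by
        obtain ⟨ω1, h3, n1, N0, h4⟩ := hS A hA (1 / ((k : ℝ) + 1)) (by positivity) ω0 n0
        exact ⟨ω1, h3, n1, fun ω hω => ⟨N0, h4 ω hω⟩⟩)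
      filter_upwards [h2] with ω hω _
      exact hω
    · exact Eventually.of_forall fun ω h => absurd h hA
  filter_upwards [h1] with ω hω A hA
  rw [Metric.tendsto_nhds]
  intro ε hε
  obtain ⟨k, hk⟩ := exists_nat_one_div_lt hε
  obtain ⟨N0, hN0⟩ := hω A k hA
  filter_upwards [eventually_ge_atTop N0] with N hN
  rw [Real.dist_eq, sub_zero]
  exact (hN0 N hN).trans_lt hk

lemma na_closed (A : Finset (ℕ × ℕ)) (ε : ℝ) (N0 : ℕ) :
    IsClosed {ω : ℕ → ℕ → Bool | ∀ N, N0 ≤ N → |NA (mf ω) A N| ≤ ε} := by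
  rw [← isOpen_compl_iff, isOpen_iff_mem_nhds]
  intro ω hω
  rw [Set.mem_compl_iff, Set.mem_ofPred_eq] at hω
  push Not at hω
  obtain ⟨N, hN, hC⟩ := hω
  refine mem_of_superset (cyl2_nhds ω (N + A.sup Prod.fst + A.sup Prod.snd + 1)) fun ω' hω' h => ?_
  have h1 := h N hN
  rw [na_local hω' (by omega) (by omega)] at h1
  linarith

theorem small3_of_generic (h : ∀ᶠ ω in residual (ℕ → ℕ → Bool), ∀ A : Finset (ℕ × ℕ),
      A.Nonempty → Tendsto (NA (mf ω) A) atTop (nhds 0)) {A : Finset (ℕ × ℕ)} (hA : A.Nonempty)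
    {ε : ℝ} (hε : 0 < ε) : Small3 A ε := by
  intro ω0 n0
  have h1 : ∀ᶠ ω in residual (ℕ → ℕ → Bool), ∃ N0 : ℕ, ∀ N, N0 ≤ N → |NA (mf ω) A N| ≤ ε := by
    filter_upwards [h] with ω hω
    have h2 := (hω A hA).abs
    rw [abs_zero] at h2
    exact eventually_atTop.1 (h2.eventually_le_const hε)
  obtain ⟨ω1, h3, n1, N0, h4⟩ := cyl_of_res2 (fun N0 => na_closed A ε N0) h1 ω0 n0
  exact ⟨ω1, h3, n1, N0, h4⟩

/-- vanishing correlations are stable under changing finitely many signs -/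
theorem na_sw {ω : ℕ → ℕ → Bool}
    (hc : ∀ A : Finset (ℕ × ℕ), A.Nonempty → Tendsto (NA (mf ω) A) atTop (nhds 0))
    (ω0 : ℕ → ℕ → Bool) (n0 : ℕ) {A : Finset (ℕ × ℕ)} (hA : A.Nonempty) :
    Tendsto (NA (mf (sw2 ω0 n0 ω)) A) atTop (nhds 0) := by
  have h1 := apN (mf_or ω) hc hA (w := fun n => ∏ a ∈ A, gg2 ω0 n0 ω a.2 (n + a.1)) (QQ_pos n0)
    (fun n hn => prod_congr rfl fun a _ => by
      unfold gg2
      split_ifs
      · rw [show n + QQ n0 + a.1 = n + a.1 + QQ n0 by ring]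
        exact gg_periodic (ω0 a.2) n0 (ω a.2) (by omega)
      · rfl) (fun n => by
      rw [abs_prod]
      refine (prod_eq_one fun a _ => ?_).le
      unfold gg2
      split_ifs
      · rcases gg_or (ω0 a.2) n0 (ω a.2) (n + a.1) with h | h <;> rw [h] <;> simp
      · simp)
  refine h1.congr fun N => ?_
  unfold NA
  congr 1
  refine sum_congr rfl fun n _ => ?_
  rw [← prod_mul_distrib]
  refine prod_congr rfl fun a _ => ?_
  rw [sw2_mul ω0 n0 ω]

theorem generic_of_not_small3 {A : Finset (ℕ × ℕ)} (hA : A.Nonempty) {ε : ℝ} (hε : 0 < ε)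
    (hS : ¬ Small3 A ε) : ∀ᶠ ω in residual (ℕ → ℕ → Bool), ∃ A : Finset (ℕ × ℕ), A.Nonempty ∧
      ¬ Tendsto (NA (mf ω) A) atTop (nhds 0) := by
  unfold Small3 at hS
  push Not at hS
  obtain ⟨ω0, n0, hS⟩ := hS
  have h1 : ∀ᶠ ω in residual (ℕ → ℕ → Bool), ∀ N0 : ℕ, ∃ N, N0 ≤ N ∧
      ε < |NA (mf (sw2 ω0 n0 ω)) A N| := by
    rw [eventually_countable_forall]
    intro N0
    refine res_of_cyl2 fun ω2 n2 => ?_
    have hin : ∀ (ω ω' : ℕ → ℕ → Bool) {i k : ℕ}, i < n0 → k < n0 → sw2 ω n0 ω' i k = ω i k := by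
      intro ω ω' i k hi hk
      unfold sw2 sw
      rw [if_pos hi, if_pos hk]
    have hout : ∀ (ω ω' : ℕ → ℕ → Bool) {i k : ℕ}, ¬ (i < n0 ∧ k < n0) →
        sw2 ω n0 ω' i k = ω' i k := by
      intro ω ω' i k hik
      unfold sw2 sw
      by_cases hi : i < n0
      · rw [if_pos hi, if_neg (fun hk => hik ⟨hi, hk⟩)]
      · rw [if_neg hi]
    obtain ⟨ω, h2, N, hN, h3⟩ := hS (sw2 ω0 n0 ω2) (fun i hi k hk => hin _ _ hi hk)
      (max n0 n2) N0
    have h4 : ∀ i, i < n0 → ∀ k, k < n0 → ω i k = ω0 i k := fun i hi k hk => by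
      rw [h2 i (lt_max_of_lt_left hi) k (lt_max_of_lt_left hk)]
      exact hin _ _ hi hk
    have h5 : sw2 ω0 n0 (sw2 ω2 n0 ω) = ω := by
      funext i k
      by_cases hik : i < n0 ∧ k < n0
      · rw [hin _ _ hik.1 hik.2, h4 i hik.1 k hik.2]
      · rw [hout _ _ hik, hout _ _ hik]
    refine ⟨sw2 ω2 n0 ω, fun i hi k hk => ?_, N + A.sup Prod.fst + A.sup Prod.snd + 1,
      fun ω'' hω'' => ⟨N, hN, ?_⟩⟩
    · by_cases hik : i < n0 ∧ k < n0
      · exact hin _ _ hik.1 hik.2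
      · rw [hout _ _ hik, h2 i (lt_max_of_lt_right hi) k (lt_max_of_lt_right hk), hout _ _ hik]
    · have h6 : NA (mf (sw2 ω0 n0 ω'')) A N = NA (mf ω) A N := by
        rw [← h5]
        refine na_local (n0 := N + A.sup Prod.fst + A.sup Prod.snd + 1) (fun i hi k hk => ?_)
          (by omega) (by omega)
        by_cases hik : i < n0 ∧ k < n0
        · rw [hin _ _ hik.1 hik.2, hin _ _ hik.1 hik.2]
        · rw [hout _ _ hik, hout _ _ hik]
          exact hω'' i hi k hk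
      rw [h6]
      exact h3
  filter_upwards [h1] with ω hω
  by_contra hcon
  push Not at hcon
  have h2 := na_sw hcon ω0 n0 hA
  have h3 := h2.abs
  rw [abs_zero] at h3
  obtain ⟨N0, hN0⟩ := eventually_atTop.1 (h3.eventually_le_const hε)
  obtain ⟨N, hN, h4⟩ := hω N0
  have := hN0 N hN
  linarith

/-- natural averages vary slowly -/
lemma na_slow {F : ℕ → ℕ → ℝ} (hF : ∀ i n, F i n = 1 ∨ F i n = -1) (A : Finset (ℕ × ℕ)) :
    Tendsto (fun N : ℕ => NA F A (N + 1) - NA F A N) atTop (nhds 0) := by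
  have h3 : Tendsto (fun N : ℕ => 2 / ((N : ℝ) + 1)) atTop (nhds 0) := by
    have := tendsto_one_div_add_atTop_nhds_zero_nat (𝕜 := ℝ)
    have h := this.const_mul 2
    rw [mul_zero] at h
    refine h.congr fun N => ?_
    ring
  refine squeeze_zero_norm' ?_ h3
  filter_upwards [eventually_ge_atTop 1] with N hN
  have hN0 : (0 : ℝ) < N := by exact_mod_cast hN
  have hN1 : (0 : ℝ) < (N : ℝ) + 1 := by linarith
  have ha : |∏ a ∈ A, F a.2 (N + 1 + a.1)| = 1 := by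
    rcases prod2_or hF A (N + 1) with h | h <;> rw [h] <;> simp
  have hC : |NA F A N| ≤ 1 := by
    unfold NA
    rw [abs_div, abs_of_pos hN0, div_le_one hN0]
    calc _ ≤ ∑ n ∈ Icc 1 N, |∏ a ∈ A, F a.2 (n + a.1)| := abs_sum_le_sum_abs _ _
      _ = ∑ n ∈ Icc 1 N, (1 : ℝ) := by
        refine sum_congr rfl fun n _ => ?_
        rcases prod2_or hF A n with h | h <;> rw [h] <;> simp
      _ = N := by simp
  have e : NA F A (N + 1) - NA F A N =
      (∏ a ∈ A, F a.2 (N + 1 + a.1) - NA F A N) / ((N : ℝ) + 1) := by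
    have e1 : NA F A (N + 1) = (NA F A N * N + ∏ a ∈ A, F a.2 (N + 1 + a.1)) / ((N : ℝ) + 1) := by
      unfold NA
      rw [div_mul_cancel₀ _ hN0.ne', sum_Icc_succ_top (by omega)]
      push_cast
      rfl
    rw [e1]
    field_simp
    ring
  rw [e, Real.norm_eq_abs, abs_div, abs_of_pos hN1]
  refine div_le_div_of_nonneg_right ?_ hN1.le
  refine (abs_sub _ _).trans ?_
  rw [ha]
  linarith

end Pool.Agent.TH668.Gen
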